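import Pool.Agent.Results.MP_4b9105_lc.CanonicalBounding

/-!
# Basic tools for the 0-1 law for open set mappings
-/

namespace Pool.Agent.H71.ZO

open Cardinal Ordinal Set
open Pool.Agent.Results.MP_4b9105_lc.CanonicalBounding

/-! ### Kueker's theorem, abstractly -/

theorem kuekerAbs {α : Type*} (U : Set α) (D : Set (Set α))
    (hD : ∀ A ∈ D, A.Countable ∧ A ⊆ U)
    (hcl : ∀ A : ℕ → Set α, (∀ n, A n ⊆ A (n + 1)) → (∀ n, A n ∈ D) → (⋃ n, A n) ∈ D)
    (hub : ∀ A : Set α, A.Countable → A ⊆ U → ∃ B ∈ D, A ⊆ B) :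
    ∃ F : Finset α → Set α, (∀ a, (F a).Countable) ∧
      (∀ a : Finset α, (a : Set α) ⊆ U → F a ⊆ U) ∧
      ∀ M : Set α, M.Countable → M ⊆ U →
        (∀ a : Finset α, (a : Set α) ⊆ M → F a ⊆ M) → M ∈ D := by
  classical
  obtain ⟨W, hW1, hW2⟩ : ∃ W : Set α → Set α, (∀ A, (W A).Countable) ∧
      ∀ A : Set α, A.Countable → A ⊆ U → W A ∈ D ∧ A ⊆ W A := by
    refine ⟨fun A => if h : A.Countable ∧ A ⊆ U then (hub A h.1 h.2).choose else ∅,
      ?_, ?_⟩
    · intro A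
      dsimp only
      split_ifs with h
      · exact (hD _ (hub A h.1 h.2).choose_spec.1).1
      · exact countable_empty
    · intro A h1 h2
      dsimp only
      rw [dif_pos (show A.Countable ∧ A ⊆ U from ⟨h1, h2⟩)]
      exact (hub A h1 h2).choose_spec
  let F : Finset α → Set α := fun a =>
    a.strongInduction (fun a ih => W (↑a ∪ ⋃ b, ⋃ h : b ⊂ a, ih b h))
  have hF : ∀ a, F a = W (↑a ∪ ⋃ b, ⋃ _ : b ⊂ a, F b) := by
    intro a
    show Finset.strongInduction _ a = _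
    rw [Finset.strongInduction_eq]
  have hFc : ∀ a, (F a).Countable := by
    intro a
    rw [hF]
    exact hW1 _
  have hcount : ∀ a : Finset α,
      ((a : Set α) ∪ ⋃ b, ⋃ _ : b ⊂ a, F b).Countable := by
    intro a
    refine a.countable_toSet.union ?_
    have : {b : Finset α | b ⊂ a}.Countable :=
      (a.ssubsets.finite_toSet.subset fun b hb => by simpa using hb).countable
    exact this.biUnion fun b _ => hFc b
  have hFD : ∀ a : Finset α, (a : Set α) ⊆ U → F a ∈ D := by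
    intro a
    induction a using Finset.strongInduction with
    | H a ih =>
      intro ha
      rw [hF]
      refine (hW2 _ (hcount a) ?_).1
      refine union_subset ha (iUnion_subset fun b => iUnion_subset fun hb => ?_)
      exact (hD _ (ih b hb ((Finset.coe_subset.2 hb.1).trans ha))).2
  have hFH : ∀ a : Finset α, (a : Set α) ⊆ U → F a ⊆ U :=
    fun a ha => (hD _ (hFD a ha)).2
  have hsub : ∀ a : Finset α, (a : Set α) ⊆ U →
      (a : Set α) ∪ (⋃ b, ⋃ _ : b ⊂ a, F b) ⊆ F a := by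
    intro a ha
    conv_rhs => rw [hF]
    refine (hW2 _ (hcount a) ?_).2
    refine union_subset ha (iUnion_subset fun b => iUnion_subset fun hb => ?_)
    exact hFH b ((Finset.coe_subset.2 hb.1).trans ha)
  have hmono : ∀ a b : Finset α, (a : Set α) ⊆ U → b ⊆ a → F b ⊆ F a := by
    intro a b ha hb
    rcases eq_or_ssubset_of_subset hb with rfl | hb
    · exact Subset.rfl
    · refine Subset.trans ?_ (hsub a ha)
      refine subset_union_of_subset_right ?_ _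
      intro x hx
      exact mem_iUnion.2 ⟨b, mem_iUnion.2 ⟨hb, hx⟩⟩
  refine ⟨F, hFc, hFH, fun M hMc hMH hM => ?_⟩
  rcases M.eq_empty_or_nonempty with rfl | hne
  · have h0 : F ∅ = ∅ := subset_empty_iff.1 (hM ∅ (by simp))
    rw [← h0]
    exact hFD ∅ (by simp)
  · obtain ⟨s, hs⟩ := hMc.exists_eq_range hne
    let a : ℕ → Finset α := fun n => (Finset.range n).image s
    have haM : ∀ n, (a n : Set α) ⊆ M := by
      intro n x hx
      simp only [a, Finset.coe_image, mem_image] at hx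
      obtain ⟨i, _, rfl⟩ := hx
      rw [hs]
      exact mem_range_self i
    have hEq : M = ⋃ n, F (a n) := by
      apply Subset.antisymm
      · intro x hx
        rw [hs] at hx
        obtain ⟨i, rfl⟩ := hx
        refine mem_iUnion.2 ⟨i + 1, ?_⟩
        apply hsub _ ((haM _).trans hMH)
        left
        simp only [a, Finset.coe_image, mem_image]
        exact ⟨i, by simp, rfl⟩
      · exact iUnion_subset fun n => hM _ (haM n)
    rw [hEq]
    refine hcl _ (fun n => ?_) (fun n => hFD _ ((haM n).trans hMH))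
    refine hmono _ _ ((haM _).trans hMH) ?_
    exact Finset.image_subset_image (Finset.range_subset_range.2 (Nat.le_succ n))

/-! ### The club of sets closed under an operation, inside an ambient set -/

theorem clo_chain {α : Type*} (G : Finset α → Set α) (A : ℕ → Set α)
    (hA : ∀ n, A n ⊆ A (n + 1)) {x : α} (hx : x ∈ clo G (⋃ n, A n)) : ∃ n, x ∈ clo G (A n) := by
  classical
  obtain ⟨a, ha, hxa⟩ := clo_finitary G hx
  have hmono : Monotone A := monotone_nat_of_le_succ hA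
  obtain ⟨n, hn⟩ : ∃ n, (a : Set α) ⊆ A n := by
    clear hxa
    induction a using Finset.induction_on with
    | empty => exact ⟨0, by simp⟩
    | insert y s _ ih =>
      rw [Finset.coe_insert, insert_subset_iff] at ha
      obtain ⟨n, hn⟩ := ih ha.2
      obtain ⟨m, hm⟩ := mem_iUnion.1 ha.1
      refine ⟨max m n, ?_⟩
      rw [Finset.coe_insert, insert_subset_iff]
      exact ⟨hmono (le_max_left _ _) hm, hn.trans (hmono (le_max_right _ _))⟩
  exact ⟨n, clo_mono G hn hxa⟩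

theorem cloClub_chain {α : Type*} (G : Finset α → Set α) (U : Set α) (A : ℕ → Set α)
    (hA : ∀ n, A n ⊆ A (n + 1)) (h : ∀ n, clo G (A n) ∩ U ⊆ A n) :
    clo G (⋃ n, A n) ∩ U ⊆ ⋃ n, A n := by
  rintro x ⟨hx, hxU⟩
  obtain ⟨n, hn⟩ := clo_chain G A hA hx
  exact mem_iUnion.2 ⟨n, h n ⟨hn, hxU⟩⟩

theorem cloClub_clo {α : Type*} (G : Finset α → Set α) (U A : Set α) :
    clo G (clo G A ∩ U) ∩ U ⊆ clo G A ∩ U := by
  rintro x ⟨hx, hxU⟩
  exact ⟨clo_min inter_subset_left (clo_closed G A) hx, hxU⟩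

/-! ### More facts about `H(θ)` -/

theorem H_subset {θ : Cardinal.{0}} {x y : ZFSet.{0}} (hx : x ∈ H θ) (h : y ⊆ x) : y ∈ H θ := by
  obtain ⟨t, ht, hxt, htc⟩ := hx
  exact ⟨t, ht, fun z hz => hxt (h hz), htc⟩

theorem X_mem_H {θ : Cardinal.{0}} {X : ZFSet.{0}} (h : ctbl X ∈ H θ) : X ∈ H θ := by
  obtain ⟨t, ht, hxt, htc⟩ := h
  refine ⟨t, ht, ?_, htc⟩
  intro z hz
  obtain ⟨Q, hQ, hQ'⟩ := exists_ctbl (X := X) {z} (by rintro _ rfl; exact hz)
    (countable_singleton _)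
  exact ht Q (hxt hQ) ((hQ' z).2 rfl)

theorem card_lt_of_H {θ : Cardinal.{0}} {X : ZFSet.{0}} (h : X ∈ H θ) : X.card < θ := by
  obtain ⟨t, _, hxt, htc⟩ := h
  exact (ZFSet.card_mono hxt).trans_lt htc

theorem i1_mem_H' {θ : Cardinal.{0}} (hθ : ℵ₀ < θ) (ζ : W1) : i1 ζ ∈ H θ := by
  refine ⟨i1 ζ, (ZFSet.isOrdinal_toZFSet _).isTransitive, fun _ h => h, ?_⟩
  rw [i1, card_toZFSet]
  refine lt_of_le_of_lt ?_ hθ
  have h : (ToType.toOrd ζ : Ordinal.{0}) < ω₁ := (ToType.toOrd ζ).2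
  rwa [← Order.lt_succ_iff, succ_aleph0, ← lt_ord, ord_aleph]

theorem mem_i1 {z : ZFSet.{0}} {ζ : W1} : z ∈ i1 ζ ↔ ∃ η < ζ, i1 η = z := by
  rw [i1, mem_toZFSet_iff]
  constructor
  · rintro ⟨a, ha, rfl⟩
    have ha1 : a < ω₁ := lt_trans ha (ToType.toOrd ζ).2
    refine ⟨ToType.mk ⟨a, ha1⟩, ?_, by simp [i1]⟩
    rw [← ToType.mk.symm.lt_iff_lt, OrderIso.symm_apply_apply]
    exact ha
  · rintro ⟨η, hη, rfl⟩
    refine ⟨_, ?_, rfl⟩
    have := ToType.mk.symm.lt_iff_lt.2 hη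
    exact this

theorem dl_spec {R : Set ZFSet.{0}} (hR : R.Countable)
    (h : ∀ η ζ : W1, i1 η ∈ R → ζ < η → i1 ζ ∈ R) (η : W1) : i1 η ∈ R ↔ η < dl R := by
  have hc : {η : W1 | i1 η ∈ R}.Countable := hR.preimage i1_injective
  obtain ⟨b, hb⟩ := bdd_W1 _ hc
  have hne : {ζ : W1 | i1 ζ ∉ R}.Nonempty := ⟨b, fun hbR => lt_irrefl b (hb b hbR)⟩
  obtain ⟨m, hm, hmin⟩ := wellFounded_lt.has_min {ζ : W1 | i1 ζ ∉ R} hne
  have hspec : ∀ η, i1 η ∈ R ↔ η < m := by
    intro η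
    constructor
    · intro hη
      by_contra! hle
      rcases hle.eq_or_lt with rfl | hlt
      · exact hm hη
      · exact hm (h η m hη hlt)
    · intro hη
      by_contra hno
      exact hmin η hno hη
  rw [dl_eq hspec]
  exact hspec η

/-! ### The sets `{z ∈ X : z ∈ b ∨ z ∈ y}` -/

/-- `{z ∈ X : z ∈ b ∨ z ∈ y}`. -/
noncomputable def PQ (X : ZFSet.{0}) (b : Finset ZFSet.{0}) (y : ZFSet.{0}) : ZFSet.{0} :=
  ZFSet.sep (fun z => z ∈ b ∨ z ∈ y) X

theorem mem_PQ {X : ZFSet.{0}} {b : Finset ZFSet.{0}} {y z : ZFSet.{0}} :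
    z ∈ PQ X b y ↔ z ∈ X ∧ (z ∈ b ∨ z ∈ y) := by
  rw [PQ, ZFSet.mem_sep]

theorem countable_i1 (α : W1) : (i1 α : Set ZFSet.{0}).Countable := by
  refine ((countable_Iio_W1 α).image i1).mono ?_
  intro z hz
  obtain ⟨η, hη, rfl⟩ := mem_i1.1 hz
  exact ⟨η, hη, rfl⟩

theorem PQ_mem_ctbl (X : ZFSet.{0}) (b : Finset ZFSet.{0}) (α : W1) :
    PQ X b (i1 α) ∈ ctbl X := by
  rw [mem_ctbl]
  refine ⟨fun z hz => (mem_PQ.1 hz).1, ?_⟩
  refine (b.countable_toSet.union (countable_i1 α)).mono ?_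
  intro z hz
  exact (mem_PQ.1 hz).2

/-! ### Uniformization of a mapping satisfying the hypotheses of the 0-1 law -/

/-- The models generated by `a ∪ δ`. -/
def Mod (F : Finset ZFSet.{0} → Set ZFSet.{0}) (a : Finset ZFSet.{0}) (δ : W1) :
    Set ZFSet.{0} :=
  clo F (↑a ∪ i1 '' Iio δ)

theorem uniformize {X : ZFSet.{0}} {θ : Cardinal.{0}} (hX : ℵ₀ < X.card)
    (hH : ctbl X ∈ H θ) {D : Set (Set ZFSet.{0})} {S : Set ZFSet.{0} → Set ZFSet.{0}}
    (hS : IsOpenMapping X θ D S)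
    (h1 : ∀ M ∈ D, ∀ P ∈ S M, ∀ P' ∈ ctbl X, EndExt P P' → P' ∈ S M)
    (h2 : ∀ M ∈ D, ∀ M' ∈ D, EndExt M M' → S M' ∩ M = S M ∩ M) :
    ∃ (F : Finset ZFSet.{0} → Set ZFSet.{0}) (h : Finset ZFSet.{0} → W1 → Set W1),
      (∀ a, (F a).Countable) ∧ (∀ a : Finset ZFSet.{0}, (a : Set ZFSet.{0}) ⊆ H θ → F a ⊆ H θ) ∧
      (∀ M : Set ZFSet.{0}, M.Countable → M ⊆ H θ →
        (∀ a : Finset ZFSet.{0}, (a : Set ZFSet.{0}) ⊆ M → F a ⊆ M) → M ∈ D) ∧
      (∀ a : Finset ZFSet.{0}, (a : Set ZFSet.{0}) ⊆ X → ∀ δ α, α ∈ h a δ → (∃ ζ, ζ < α) →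
        ∃ γ < α, ∀ β, γ < β → β ≤ α → β ∈ h a δ) ∧
      (∀ M : Set ZFSet.{0}, M.Countable → M ⊆ H θ →
        (∀ a : Finset ZFSet.{0}, (a : Set ZFSet.{0}) ⊆ M → F a ⊆ M) →
        ∀ δ, (∀ η, i1 η ∈ M ↔ η < δ) → ∀ P ∈ ctbl X, (P : Set ZFSet.{0}) ⊆ M → ∀ α < δ,
        (∀ η, i1 η ∈ P ↔ i1 η ∈ X ∧ η < α) →
        (P ∈ M → P ∈ S M → ∃ a : Finset ZFSet.{0}, (a : Set ZFSet.{0}) ⊆ P ∧ α ∈ h a δ) ∧
        ((∃ a : Finset ZFSet.{0}, (a : Set ZFSet.{0}) ⊆ P ∧ α ∈ h a δ) → P ∈ S M)) := by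
  classical
  have hXH : X ∈ H θ := X_mem_H hH
  have hθ : ℵ₀ < θ := hX.trans (card_lt_of_H hXH)
  obtain ⟨F0, hF0c, hF0H, hF0⟩ := kueker hS.club
  let F : Finset ZFSet.{0} → Set ZFSet.{0} := fun a =>
    F0 a ∪ ↑((a.powerset ×ˢ a).image (fun p => PQ X p.1 p.2))
  have hFc : ∀ a, (F a).Countable := fun a => (hF0c a).union (Finset.countable_toSet _)
  have hFH : ∀ a : Finset ZFSet.{0}, (a : Set ZFSet.{0}) ⊆ H θ → F a ⊆ H θ := by
    intro a ha
    refine union_subset (hF0H a ha) ?_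
    intro z hz
    rw [Finset.mem_coe, Finset.mem_image] at hz
    obtain ⟨p, _, rfl⟩ := hz
    exact H_subset hXH fun z hz => (mem_PQ.1 hz).1
  have hFD : ∀ M : Set ZFSet.{0}, M.Countable → M ⊆ H θ →
      (∀ a : Finset ZFSet.{0}, (a : Set ZFSet.{0}) ⊆ M → F a ⊆ M) → M ∈ D :=
    fun M hMc hMH hM => hF0 M hMc hMH fun a ha => subset_union_left.trans (hM a ha)
  have hFPQ : ∀ M : Set ZFSet.{0},
      (∀ a : Finset ZFSet.{0}, (a : Set ZFSet.{0}) ⊆ M → F a ⊆ M) →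
      ∀ b : Finset ZFSet.{0}, (b : Set ZFSet.{0}) ⊆ M → ∀ y ∈ M, PQ X b y ∈ M := by
    intro M hM b hb y hy
    refine hM (insert y b) (by
      rw [Finset.coe_insert]
      exact insert_subset hy hb) (Or.inr ?_)
    rw [Finset.mem_coe, Finset.mem_image]
    refine ⟨(b, y), ?_, rfl⟩
    rw [Finset.mem_product]
    exact ⟨Finset.mem_powerset.2 (Finset.subset_insert _ _), Finset.mem_insert_self _ _⟩
  let h : Finset ZFSet.{0} → W1 → Set W1 := fun a δ => {α | PQ X a (i1 α) ∈ S (Mod F a δ)}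
  -- the models `Mod F a δ`
  have hXsub : (X : Set ZFSet.{0}) ⊆ H θ := fun z hz => H_trans hXH hz
  have hModc : ∀ a δ, (Mod F a δ).Countable := fun a δ =>
    clo_countable F hFc (a.countable_toSet.union ((countable_Iio_W1 δ).image _))
  have hModH : ∀ a : Finset ZFSet.{0}, (a : Set ZFSet.{0}) ⊆ X → ∀ δ, Mod F a δ ⊆ H θ := by
    intro a ha δ
    refine clo_min (union_subset (ha.trans hXsub) ?_) hFH
    rintro _ ⟨η, _, rfl⟩
    exact i1_mem_H' hθ η
  have hModcl : ∀ a δ, ∀ b : Finset ZFSet.{0}, (b : Set ZFSet.{0}) ⊆ Mod F a δ →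
      F b ⊆ Mod F a δ := fun a δ b hb => clo_closed F _ b hb
  have hModD : ∀ a : Finset ZFSet.{0}, (a : Set ZFSet.{0}) ⊆ X → ∀ δ, Mod F a δ ∈ D :=
    fun a ha δ => hFD _ (hModc a δ) (hModH a ha δ) (hModcl a δ)
  refine ⟨F, h, hFc, hFH, hFD, ?_, ?_⟩
  · intro a ha δ α hα hζ
    obtain ⟨b, N, hb, hN, hbP, hPN, hall⟩ := hS.isOpen _ (hModD a ha δ) _ hα
    have hbfin : (b : Set ZFSet.{0}).Finite := by
      have := ZFSet.cardinalMk_coe_sort (x := b)
      rw [← Set.finite_coe_iff, ← Cardinal.lt_aleph0_iff_finite]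
      rw [show #(b : Set ZFSet.{0}) = lift.{1, 0} b.card from this]
      simpa using hb
    -- a bound for the elements of `b` below `α`
    obtain ⟨γ, hγ, hγb⟩ : ∃ γ < α, ∀ η < α, i1 η ∈ b → η ≤ γ := by
      have hfin : {η : W1 | η < α ∧ i1 η ∈ b}.Finite :=
        (hbfin.preimage (f := i1) i1_injective.injOn).subset fun η hη => hη.2
      rcases Set.eq_empty_or_nonempty {η : W1 | η < α ∧ i1 η ∈ b} with he | hne
      · obtain ⟨ζ, hζ⟩ := hζ
        refine ⟨ζ, hζ, fun η h1 h2 => ?_⟩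
        have : η ∈ {η : W1 | η < α ∧ i1 η ∈ b} := ⟨h1, h2⟩
        rw [he] at this
        exact this.elim
      · obtain ⟨γ, hγ, hmax⟩ := hfin.exists_maximal hne
        refine ⟨γ, hγ.1, fun η h1 h2 => ?_⟩
        by_contra! hlt
        exact absurd (hmax ⟨h1, h2⟩ hlt.le) (not_le.2 hlt)
    refine ⟨γ, hγ, fun β hγβ hβα => ?_⟩
    refine hall _ (PQ_mem_ctbl X a β) ?_ ?_
    · intro z hz
      obtain ⟨hzX, hz'⟩ := mem_PQ.1 (hbP hz)
      refine mem_PQ.2 ⟨hzX, ?_⟩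
      rcases hz' with hz' | hz'
      · exact Or.inl hz'
      · right
        obtain ⟨η, hη, rfl⟩ := mem_i1.1 hz'
        exact mem_i1.2 ⟨η, (hγb η hη hz).trans_lt hγβ, rfl⟩
    · intro z hz
      apply hPN
      obtain ⟨hzX, hz'⟩ := mem_PQ.1 hz
      refine mem_PQ.2 ⟨hzX, ?_⟩
      rcases hz' with hz' | hz'
      · exact Or.inl hz'
      · right
        obtain ⟨η, hη, rfl⟩ := mem_i1.1 hz'
        exact mem_i1.2 ⟨η, hη.trans_le hβα, rfl⟩
  · intro M hMc hMH hM δ hδ P hP hPM α hα hPα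
    have hMD : M ∈ D := hFD M hMc hMH hM
    have hPX : P ⊆ X := (mem_ctbl.1 hP).1
    -- for `a ⊆ P` finite
    have key : ∀ a : Finset ZFSet.{0}, (a : Set ZFSet.{0}) ⊆ P →
        (PQ X a (i1 α) ∈ S M ↔ α ∈ h a δ) ∧ PQ X a (i1 α) ⊆ P := by
      intro a ha
      have haX : (a : Set ZFSet.{0}) ⊆ X := fun z hz => hPX (ha hz)
      have hsub : Mod F a δ ⊆ M := by
        refine clo_min (union_subset (ha.trans hPM) ?_) hM
        rintro _ ⟨η, hη, rfl⟩
        exact (hδ η).2 hη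
      have hEE : EndExt (Mod F a δ) M := by
        refine ⟨hsub, Subset.antisymm ?_ (inter_subset_inter_left _ hsub)⟩
        rintro z ⟨hzM, hzw⟩
        refine ⟨?_, hzw⟩
        obtain ⟨η, rfl⟩ := mem_w1.1 hzw
        exact subset_clo F _ (Or.inr ⟨η, (hδ η).1 hzM, rfl⟩)
      have hmem : PQ X a (i1 α) ∈ Mod F a δ := by
        refine hFPQ _ (hModcl a δ) a ?_ _ ?_
        · exact fun z hz => subset_clo F _ (Or.inl hz)
        · exact subset_clo F _ (Or.inr ⟨α, hα, rfl⟩)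
      have heq := h2 _ (hModD a haX δ) M hMD hEE
      refine ⟨?_, ?_⟩
      · constructor
        · intro hz
          have : PQ X a (i1 α) ∈ S M ∩ Mod F a δ := ⟨hz, hmem⟩
          rw [heq] at this
          exact this.1
        · intro hz
          have : PQ X a (i1 α) ∈ S (Mod F a δ) ∩ Mod F a δ := ⟨hz, hmem⟩
          rw [← heq] at this
          exact this.1
      · intro z hz
        obtain ⟨hzX, hz'⟩ := mem_PQ.1 hz
        rcases hz' with hz' | hz'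
        · exact ha hz'
        · obtain ⟨η, hη, rfl⟩ := mem_i1.1 hz'
          exact (hPα η).2 ⟨hzX, hη⟩
    refine ⟨?_, ?_⟩
    · intro hPM' hPS
      obtain ⟨b, N, hb, hN, hbP, hPN, hall⟩ := hS.isOpen _ hMD _ hPS
      have hbfin : (b : Set ZFSet.{0}).Finite := by
        have := ZFSet.cardinalMk_coe_sort (x := b)
        rw [← Set.finite_coe_iff, ← Cardinal.lt_aleph0_iff_finite]
        rw [show #(b : Set ZFSet.{0}) = lift.{1, 0} b.card from this]
        simpa using hb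
      let a : Finset ZFSet.{0} := hbfin.toFinset
      have ha : (a : Set ZFSet.{0}) ⊆ P := by
        intro z hz
        rw [Finite.coe_toFinset] at hz
        exact hbP hz
      refine ⟨a, ha, (key a ha).1.1 (hall _ (PQ_mem_ctbl X a α) ?_ ?_)⟩
      · intro z hz
        refine mem_PQ.2 ⟨hPX (hbP hz), Or.inl ?_⟩
        rw [Finite.mem_toFinset]
        exact hz
      · intro z hz
        exact hPN ((key a ha).2 hz)
    · rintro ⟨a, ha, hα'⟩
      have hz := (key a ha).1.2 hα'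
      refine h1 M hMD _ hz P hP ⟨(key a ha).2, Subset.antisymm ?_ ?_⟩
      · rintro z ⟨hzP, hzw⟩
        refine ⟨?_, hzw⟩
        obtain ⟨η, rfl⟩ := mem_w1.1 hzw
        obtain ⟨h3, h4⟩ := (hPα η).1 hzP
        exact mem_PQ.2 ⟨h3, Or.inr (mem_i1.2 ⟨η, h4, rfl⟩)⟩
      · exact inter_subset_inter_left _ (key a ha).2

end Pool.Agent.H71.ZO
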