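import Pool.Agent.H71.ZO.Base

/-!
# Transfer of the 0-1 law from one set `X₀ ⊇ ω₁`

The instances of the law for the uniform mappings `sig X₀ h₀` imply other instances of the law.
-/

namespace Pool.Agent.H71.ZO

open Cardinal Ordinal Set
open Pool.Agent.Results.MP_4b9105_lc.CanonicalBounding

/-! ### The mapping on `[X₀]^ω` -/

/-- The open set mapping on `[X₀]^ω` given by a family of functions on `ω₁`. -/
def sig (X0 : ZFSet.{0}) (h0 : ZFSet.{0} → W1 → Set W1) (N : Set ZFSet.{0}) : Set ZFSet.{0} :=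
  {P | P ∈ ctbl X0 ∧ ∃ x ∈ P, ∃ γ : W1, i1 γ ∈ P ∧ ∀ β, γ < β →
    (∀ ζ < β, ∃ η, ζ ≤ η ∧ i1 η ∈ P) → β ∈ h0 x (dl N)}

theorem sig_open (X0 : ZFSet.{0}) (h0 : ZFSet.{0} → W1 → Set W1) (N : Set ZFSet.{0}) :
    IsOpenX X0 (sig X0 h0 N) := by
  rintro P ⟨hP, x, hx, γ, hγ, hall⟩
  refine ⟨{x, i1 γ}, P, ?_, hP, ?_, fun _ h => h, ?_⟩
  · refine (ZFSet.card_insert_le).trans_lt ?_
    rw [ZFSet.card_singleton, one_add_one_eq_two]
    exact Cardinal.natCast_lt_aleph0 (n := 2)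
  · intro z hz
    rw [ZFSet.mem_pair] at hz
    rcases hz with rfl | rfl
    · exact hx
    · exact hγ
  · intro Q hQ h1 h2
    refine ⟨hQ, x, h1 (ZFSet.mem_pair.2 (Or.inl rfl)), γ, h1 (ZFSet.mem_pair.2 (Or.inr rfl)), ?_⟩
    intro β hβ hβ'
    refine hall β hβ fun ζ hζ => ?_
    obtain ⟨η, h3, h4⟩ := hβ' ζ hζ
    exact ⟨η, h3, h2 h4⟩

theorem sig_endExt (X0 : ZFSet.{0}) (h0 : ZFSet.{0} → W1 → Set W1) (N : Set ZFSet.{0})
    (P : ZFSet.{0}) (hP : P ∈ sig X0 h0 N) (P' : ZFSet.{0}) (hP' : P' ∈ ctbl X0)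
    (hE : EndExt (P : Set ZFSet.{0}) P') : P' ∈ sig X0 h0 N := by
  obtain ⟨_, x, hx, γ, hγ, hall⟩ := hP
  refine ⟨hP', x, hE.1 hx, γ, hE.1 hγ, fun β hβ hβ' => hall β hβ fun ζ hζ => ?_⟩
  obtain ⟨η, h3, h4⟩ := hβ' ζ hζ
  refine ⟨η, h3, ?_⟩
  have : i1 η ∈ (P' : Set ZFSet.{0}) ∩ w1 := ⟨h4, mem_w1.2 ⟨η, rfl⟩⟩
  rw [hE.2] at this
  exact this.1

theorem sig_isOpenMapping {X0 : ZFSet.{0}} {θ : Cardinal.{0}} (hθ : ℵ₀ ≤ θ)
    (hH : ctbl X0 ∈ H θ) (h0 : ZFSet.{0} → W1 → Set W1) :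
    IsOpenMapping X0 θ {M | IsCtblElem θ M ∧ X0 ∈ M} (sig X0 h0) where
  club := club_elem hθ (X_mem_H hH)
  mem := fun _ h => h.2
  subset := fun _ _ _ hP => hP.1
  isOpen := fun N _ => sig_open X0 h0 N

/-! ### Pulling back clubs -/

theorem iUnion_mem_ctbl {X : ZFSet.{0}} (P : ℕ → ZFSet.{0}) (h : ∀ n, P n ∈ ctbl X) :
    ZFSet.iUnion P ∈ ctbl X := by
  rw [mem_ctbl]
  constructor
  · intro z hz
    obtain ⟨n, hn⟩ := ZFSet.mem_iUnion.1 hz
    exact (mem_ctbl.1 (h n)).1 hn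
  · rw [ZFSet.coe_iUnion]
    exact countable_iUnion fun n => (mem_ctbl.1 (h n)).2

theorem pull {X X0 : ZFSet.{0}} (hw : w1 ⊆ X0) (φ : Finset ZFSet.{0} → ZFSet.{0})
    (hφ : ∀ a, φ a ∈ X0) {E0 : ZFSet.{0}} (hE0 : IsClubX X0 E0) :
    ∃ (E : ZFSet.{0}) (q : ZFSet.{0} → ZFSet.{0}), IsClubX X E ∧ ∀ P ∈ E, q P ∈ E0 ∧
      ∃ α : W1, (∃ ζ, ζ < α) ∧ (∀ η, i1 η ∈ q P ↔ η < α) ∧
        (∀ η, i1 η ∈ P ↔ i1 η ∈ X ∧ η < α) ∧
        (∀ a : Finset ZFSet.{0}, (a : Set ZFSet.{0}) ⊆ P → φ a ∈ q P) ∧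
        (∀ a' : Finset ZFSet.{0}, (a' : Set ZFSet.{0}) ⊆ X → φ a' ∈ q P →
          ∃ a : Finset ZFSet.{0}, (a : Set ZFSet.{0}) ⊆ P ∧ φ a = φ a') := by
  classical
  obtain ⟨L, hLc, hLX, hL⟩ := kuekerAbs (X0 : Set ZFSet.{0})
    {A | ∃ P ∈ E0, (P : Set ZFSet.{0}) = A}
    (by
      rintro _ ⟨P, hP, rfl⟩
      have := mem_ctbl.1 (hE0.subset hP)
      exact ⟨this.2, fun z hz => this.1 hz⟩)
    (by
      intro A hA hA'
      choose P hP hPA using hA'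
      refine ⟨ZFSet.iUnion P, hE0.closed P (fun n => ?_) hP, ?_⟩
      · intro z hz
        have h1 : z ∈ A n := by rw [← hPA n]; exact hz
        have h2 := hA n h1
        rw [← hPA (n + 1)] at h2
        exact h2
      · rw [ZFSet.coe_iUnion]
        exact iUnion_congr fun n => hPA n)
    (by
      intro A hAc hAX
      obtain ⟨Q, hQ, hQ'⟩ := exists_ctbl A hAX hAc
      obtain ⟨P, hP, hQP⟩ := hE0.unbounded Q hQ
      exact ⟨P, ⟨P, hP, rfl⟩, fun z hz => hQP ((hQ' z).2 hz)⟩)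
  have hψ : ∀ x : ZFSet.{0}, ∃ b : Finset ZFSet.{0},
      (∃ a : Finset ZFSet.{0}, (a : Set ZFSet.{0}) ⊆ X ∧ φ a = x) →
      (b : Set ZFSet.{0}) ⊆ X ∧ φ b = x := by
    intro x
    by_cases h : ∃ a : Finset ZFSet.{0}, (a : Set ZFSet.{0}) ⊆ X ∧ φ a = x
    · obtain ⟨a, ha⟩ := h
      exact ⟨a, fun _ => ha⟩
    · exact ⟨∅, fun h' => absurd h' h⟩
  choose ψ hψ using hψ
  let o : W1 := Classical.arbitrary W1
  let K : Finset ZFSet.{0} → Set ZFSet.{0} := fun s =>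
    L s ∪ {φ s} ∪ (⋃ x ∈ s, (ψ x : Set ZFSet.{0})) ∪
      (⋃ x ∈ s, {z | ∃ η ζ, i1 η = x ∧ ζ < η ∧ i1 ζ = z}) ∪ {i1 o}
  have hKc : ∀ s, (K s).Countable := by
    intro s
    refine Countable.union (Countable.union (Countable.union (Countable.union (hLc s) ?_) ?_) ?_)
      ?_
    · exact countable_singleton _
    · exact s.countable_toSet.biUnion fun x _ => (ψ x).countable_toSet
    · refine s.countable_toSet.biUnion fun x _ => ?_
      by_cases hx : ∃ η, i1 η = x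
      · obtain ⟨η, rfl⟩ := hx
        refine ((countable_Iio_W1 η).image i1).mono ?_
        rintro z ⟨η', ζ, h1, h2, rfl⟩
        rw [i1_injective h1] at h2
        exact ⟨ζ, h2, rfl⟩
      · refine countable_empty.mono ?_
        rintro z ⟨η, ζ, h1, _⟩
        exact absurd ⟨η, h1⟩ hx
    · exact countable_singleton _
  have hKcl : ∀ (A : Set ZFSet.{0}) (s : Finset ZFSet.{0}), (s : Set ZFSet.{0}) ⊆ clo K A →
      K s ⊆ clo K A := fun A s hs => clo_closed K A s hs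
  let E : ZFSet.{0} := ZFSet.sep (fun P => clo K (P : Set ZFSet.{0}) ∩ X ⊆ (P : Set ZFSet.{0}))
    (ctbl X)
  have hE : ∀ P, P ∈ E ↔ P ∈ ctbl X ∧ clo K (P : Set ZFSet.{0}) ∩ X ⊆ (P : Set ZFSet.{0}) :=
    fun P => ZFSet.mem_sep
  let q : ZFSet.{0} → ZFSet.{0} := fun P => ZFSet.sep (fun z => z ∈ clo K (P : Set ZFSet.{0})) X0
  have hq : ∀ P z, z ∈ q P ↔ z ∈ X0 ∧ z ∈ clo K (P : Set ZFSet.{0}) := fun P z => ZFSet.mem_sep
  refine ⟨E, q, ?_, ?_⟩
  · constructor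
    · intro P hP
      exact ((hE P).1 hP).1
    · intro P hP hPE
      rw [hE]
      refine ⟨iUnion_mem_ctbl P fun n => ((hE _).1 (hPE n)).1, ?_⟩
      rw [ZFSet.coe_iUnion]
      exact cloClub_chain K X (fun n => (P n : Set ZFSet.{0})) (fun n z hz => hP n hz)
        fun n => ((hE _).1 (hPE n)).2
    · intro Q hQ
      obtain ⟨hQX, hQc⟩ := mem_ctbl.1 hQ
      obtain ⟨P, hP, hP'⟩ := exists_ctbl (X := X) (clo K (Q : Set ZFSet.{0}) ∩ X)
        inter_subset_right ((clo_countable K hKc hQc).mono inter_subset_left)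
      have hPs : (P : Set ZFSet.{0}) = clo K (Q : Set ZFSet.{0}) ∩ X := Set.ext hP'
      refine ⟨P, (hE P).2 ⟨hP, ?_⟩, ?_⟩
      · rw [hPs]
        exact cloClub_clo K _ _
      · intro z hz
        exact (hP' z).2 ⟨subset_clo K _ hz, hQX hz⟩
  · intro P hP
    obtain ⟨hPc, hPcl⟩ := (hE P).1 hP
    obtain ⟨hPX, hPcc⟩ := mem_ctbl.1 hPc
    let B : Set ZFSet.{0} := clo K (P : Set ZFSet.{0})
    have hBc : B.Countable := clo_countable K hKc hPcc
    have hPB : (P : Set ZFSet.{0}) ⊆ B := subset_clo K _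
    have hBcl : ∀ s : Finset ZFSet.{0}, (s : Set ZFSet.{0}) ⊆ B → K s ⊆ B := hKcl _
    have hBi : ∀ η ζ : W1, i1 η ∈ B → ζ < η → i1 ζ ∈ B := by
      intro η ζ hη hζ
      refine hBcl {i1 η} (by simpa using hη) ?_
      left; right
      exact mem_iUnion₂.2 ⟨i1 η, by simp, η, ζ, rfl, hζ, rfl⟩
    have hspec := dl_spec hBc hBi
    have hoB : i1 o ∈ B := hBcl ∅ (by simp) (Or.inr rfl)
    obtain ⟨Q, hQ, hQB⟩ : (B ∩ X0) ∈ {A | ∃ P ∈ E0, (P : Set ZFSet.{0}) = A} := by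
      refine hL _ (hBc.mono inter_subset_left) inter_subset_right ?_
      intro s hs
      refine subset_inter ?_ (hLX s (hs.trans inter_subset_right))
      refine Subset.trans ?_ (hBcl s (hs.trans inter_subset_left))
      intro z hz
      exact Or.inl (Or.inl (Or.inl (Or.inl hz)))
    have hQq : q P = Q := by
      ext z
      rw [hq]
      have : z ∈ (Q : Set ZFSet.{0}) ↔ z ∈ B ∩ X0 := by rw [hQB]
      rw [show z ∈ Q ↔ z ∈ B ∩ X0 from this]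
      exact and_comm
    refine ⟨hQq ▸ hQ, dl B, ⟨o, (hspec o).1 hoB⟩, ?_, ?_, ?_, ?_⟩
    · intro η
      rw [hq, ← hspec]
      exact and_iff_right (hw (mem_w1.2 ⟨η, rfl⟩))
    · intro η
      rw [← hspec]
      constructor
      · intro h
        exact ⟨hPX h, hPB h⟩
      · rintro ⟨h1, h2⟩
        exact hPcl ⟨h2, h1⟩
    · intro a ha
      rw [hq]
      refine ⟨hφ a, hBcl a (ha.trans hPB) ?_⟩
      exact Or.inl (Or.inl (Or.inl (Or.inr rfl)))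
    · intro a' ha' hφa'
      rw [hq] at hφa'
      obtain ⟨hb1, hb2⟩ := hψ (φ a') ⟨a', ha', rfl⟩
      refine ⟨ψ (φ a'), ?_, hb2⟩
      intro z hz
      refine hPcl ⟨?_, hb1 hz⟩
      refine hBcl {φ a'} (by simpa using hφa'.2) ?_
      left; left; right
      exact mem_iUnion₂.2 ⟨φ a', by simp, hz⟩

/-! ### The reduction -/

theorem exists_code {X0 X : ZFSet.{0}} (hX : ℵ₀ < X.card)
    (hc : min X.card ((2 : Cardinal.{0}) ^ ℵ₁) ≤ X0.card) (h : Finset ZFSet.{0} → W1 → Set W1) :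
    ∃ φ : Finset ZFSet.{0} → ZFSet.{0}, (∀ a, φ a ∈ X0) ∧
      ∀ a a' : Finset ZFSet.{0}, (a : Set ZFSet.{0}) ⊆ X → (a' : Set ZFSet.{0}) ⊆ X →
        φ a = φ a' → h a = h a' := by
  classical
  have hX0 : #(X0 : Set ZFSet.{0}) = lift.{1, 0} X0.card := ZFSet.cardinalMk_coe_sort
  rcases min_le_iff.1 hc with hc | hc
  · have hXc : #(X : Set ZFSet.{0}) = lift.{1, 0} X.card := ZFSet.cardinalMk_coe_sort
    have hinf : Infinite (X : Set ZFSet.{0}) := by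
      rw [← aleph0_le_mk_iff, hXc, aleph0_le_lift]
      exact hX.le
    have h1 : #(Finset (X : Set ZFSet.{0})) ≤ #(X0 : Set ZFSet.{0}) := by
      rw [mk_finset_of_infinite, hXc, hX0, Cardinal.lift_le]
      exact hc
    obtain ⟨e⟩ := h1
    refine ⟨fun a => (e (a.subtype (· ∈ (X : Set ZFSet.{0})))).1, fun a => (e _).2, ?_⟩
    intro a a' ha ha' he
    have h2 := e.injective (Subtype.ext he)
    have h3 : a = a' := by
      have h4 := congrArg (fun s : Finset (X : Set ZFSet.{0}) =>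
        s.map (Function.Embedding.subtype _)) h2
      simp only [Finset.subtype_map] at h4
      rw [Finset.filter_true_of_mem fun x hx => ha hx,
        Finset.filter_true_of_mem fun x hx => ha' hx] at h4
      exact h4
    rw [h3]
  · have h1 : lift.{1, 0} #(W1 → Set W1) ≤ lift.{0, 1} #(X0 : Set ZFSet.{0}) := by
      rw [hX0, Cardinal.lift_uzero, Cardinal.lift_le]
      refine le_trans (le_of_eq ?_) hc
      rw [← power_def, mk_set, card_W1, ← power_mul, mul_eq_self (aleph0_le_aleph 1)]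
    obtain ⟨e⟩ := lift_mk_le'.1 h1
    exact ⟨fun a => (e (h a)).1, fun a => (e (h a)).2, fun a a' _ _ he =>
      e.injective (Subtype.ext he)⟩

theorem card_w1 : w1.card = ℵ₁ := by
  rw [w1, card_toZFSet, card_omega]

theorem aleph0_lt_of_w1_subset {X0 : ZFSet.{0}} (hw : w1 ⊆ X0) : ℵ₀ < X0.card :=
  aleph0_lt_aleph_one.trans_le (card_w1.symm.le.trans (ZFSet.card_mono hw))

/-- The 0-1 law for the mappings `sig X0 h0`. -/
def SigLaw (X0 : ZFSet.{0}) (θ0 : Cardinal.{0}) : Prop :=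
  ∀ h0 : ZFSet.{0} → W1 → Set W1, ∃ D0, IsClubH θ0 D0 ∧ ∀ N ∈ D0, ∃ E ∈ N, IsClubX X0 E ∧
    ((∀ P ∈ E, P ∈ N → P ∈ sig X0 h0 N) ∨ (∀ P ∈ E, P ∈ N → P ∉ sig X0 h0 N))

theorem sigLaw_of_law {X0 : ZFSet.{0}} {θ0 : Cardinal.{0}} (hθ0 : ℵ₀ ≤ θ0)
    (hH0 : ctbl X0 ∈ H θ0) (h01 : ZeroOneLawAt X0 θ0) : SigLaw X0 θ0 := by
  intro h0
  obtain ⟨D0, -, hD0club, hD0⟩ := h01 _ (sig X0 h0) (sig_isOpenMapping hθ0 hH0 h0)
    (fun M _ P hP P' hP' hE => sig_endExt X0 h0 M P hP P' hP' hE)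
    (fun M _ M' _ hE => by
      have := dl_congr hE.2
      simp only [sig, this])
  exact ⟨D0, hD0club, hD0⟩

theorem reduction {X0 : ZFSet.{0}} {θ0 : Cardinal.{0}} (hw : w1 ⊆ X0)
    (hH0 : ctbl X0 ∈ H θ0)
    (hsig : SigLaw X0 θ0) {X : ZFSet.{0}} {θ : Cardinal.{0}} (hX : ℵ₀ < X.card)
    (hH : ctbl X ∈ H θ) (hc : min X.card ((2 : Cardinal.{0}) ^ ℵ₁) ≤ X0.card) :
    ZeroOneLawAt X θ := by
  classical
  intro D S hS h1 h2
  obtain ⟨F, h, hFc, hFH, hFD, hopen, hkey⟩ := uniformize hX hH hS h1 h2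
  obtain ⟨φ, hφ, hφh⟩ := exists_code hX hc h
  have hXH : X ∈ H θ := X_mem_H hH
  have hθ : ℵ₀ < θ := hX.trans (card_lt_of_H hXH)
  have hX0H : X0 ∈ H θ0 := X_mem_H hH0
  have hX0 : ℵ₀ < X0.card := aleph0_lt_of_w1_subset hw
  have hθ0' : ℵ₀ < θ0 := hX0.trans (card_lt_of_H hX0H)
  let h0 : ZFSet.{0} → W1 → Set W1 := fun x δ =>
    {α | ∃ a : Finset ZFSet.{0}, (a : Set ZFSet.{0}) ⊆ X ∧ φ a = x ∧ α ∈ h a δ}
  obtain ⟨D0, hD0club, hD0⟩ := hsig h0
  obtain ⟨F0, hF0c, hF0H, hF0⟩ := kueker hD0club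
  have hpull : ∀ E0 : ZFSet.{0}, ∃ (E : ZFSet.{0}) (q : ZFSet.{0} → ZFSet.{0}),
      IsClubX X0 E0 → (IsClubX X E ∧ ∀ P ∈ E, q P ∈ E0 ∧
      ∃ α : W1, (∃ ζ, ζ < α) ∧ (∀ η, i1 η ∈ q P ↔ η < α) ∧
        (∀ η, i1 η ∈ P ↔ i1 η ∈ X ∧ η < α) ∧
        (∀ a : Finset ZFSet.{0}, (a : Set ZFSet.{0}) ⊆ P → φ a ∈ q P) ∧
        (∀ a' : Finset ZFSet.{0}, (a' : Set ZFSet.{0}) ⊆ X → φ a' ∈ q P →
          ∃ a : Finset ZFSet.{0}, (a : Set ZFSet.{0}) ⊆ P ∧ φ a = φ a')) := by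
    intro E0
    by_cases hE0 : IsClubX X0 E0
    · obtain ⟨E, q, hEq⟩ := pull (X := X) hw φ hφ hE0
      exact ⟨E, q, fun _ => hEq⟩
    · exact ⟨∅, fun _ => ∅, fun h => absurd h hE0⟩
  choose g q hgq using hpull
  -- the closure operation
  let G : Finset ZFSet.{0} → Set ZFSet.{0} := fun s =>
    F s ∪ F0 s ∪ (⋃ x ∈ s, {z | ∃ η ζ, i1 η = x ∧ ζ < η ∧ i1 ζ = z}) ∪
      (⋃ x ∈ s, {z | (x : Set ZFSet.{0}).Countable ∧ z ∈ x}) ∪
      (⋃ x ∈ s, {i1 (dl (x : Set ZFSet.{0})), g x}) ∪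
      (⋃ x ∈ s, ⋃ y ∈ s, {q x y})
  have hGc : ∀ s, (G s).Countable := by
    intro s
    refine Countable.union (Countable.union (Countable.union (Countable.union
      ((hFc s).union (hF0c s)) ?_) ?_) ?_) ?_
    · refine s.countable_toSet.biUnion fun x _ => ?_
      by_cases hx : ∃ η, i1 η = x
      · obtain ⟨η, rfl⟩ := hx
        refine ((countable_Iio_W1 η).image i1).mono ?_
        rintro z ⟨η', ζ, h1, h2, rfl⟩
        rw [i1_injective h1] at h2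
        exact ⟨ζ, h2, rfl⟩
      · refine countable_empty.mono ?_
        rintro z ⟨η, ζ, h1, _⟩
        exact absurd ⟨η, h1⟩ hx
    · refine s.countable_toSet.biUnion fun x _ => ?_
      by_cases hx : (x : Set ZFSet.{0}).Countable
      · exact hx.mono fun z hz => hz.2
      · exact countable_empty.mono fun z hz => absurd hz.1 hx
    · exact s.countable_toSet.biUnion fun x _ => (countable_singleton _).insert _
    · exact s.countable_toSet.biUnion fun x _ => s.countable_toSet.biUnion fun y _ =>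
        countable_singleton _
  let D' : Set (Set ZFSet.{0}) := {M | M.Countable ∧ M ⊆ H θ ∧ clo G M ∩ H θ ⊆ M}
  -- facts about the members of `D'`
  have hD'F : ∀ M ∈ D', ∀ a : Finset ZFSet.{0}, (a : Set ZFSet.{0}) ⊆ M → F a ⊆ M := by
    rintro M ⟨hMc, hMH, hM⟩ a ha
    refine Subset.trans (subset_inter ?_ (hFH a (ha.trans hMH))) hM
    refine Subset.trans ?_ (clo_closed G M a (ha.trans (subset_clo G M)))
    intro z hz
    exact Or.inl (Or.inl (Or.inl (Or.inl (Or.inl hz))))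
  have hD'D : D' ⊆ D := fun M hM => hFD M hM.1 hM.2.1 (hD'F M hM)
  have hD'club : IsClubH θ D' := by
    constructor
    · intro M hM
      exact hS.club.elem M (hD'D hM)
    · intro M hM hM'
      refine ⟨countable_iUnion fun n => (hM' n).1, iUnion_subset fun n => (hM' n).2.1, ?_⟩
      exact cloClub_chain G (H θ) M hM fun n => (hM' n).2.2
    · intro A hAc hAH
      refine ⟨clo G A ∩ H θ, ⟨(clo_countable G hGc hAc).mono inter_subset_left,
        inter_subset_right, cloClub_clo G (H θ) A⟩, subset_inter (subset_clo G A) hAH⟩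
  refine ⟨D', hD'D, hD'club, ?_⟩
  intro M hM
  obtain ⟨hMc, hMH, hMcl⟩ := hM
  let R : Set ZFSet.{0} := clo G M
  let N : Set ZFSet.{0} := R ∩ H θ0
  have hRc : R.Countable := clo_countable G hGc hMc
  have hMR : M ⊆ R := subset_clo G M
  have hRcl : ∀ s : Finset ZFSet.{0}, (s : Set ZFSet.{0}) ⊆ R → G s ⊆ R :=
    fun s hs => clo_closed G M s hs
  have hRM : ∀ z ∈ R, z ∈ H θ → z ∈ M := fun z hz hzH => hMcl ⟨hz, hzH⟩
  have hRi : ∀ η ζ : W1, i1 η ∈ R → ζ < η → i1 ζ ∈ R := by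
    intro η ζ hη hζ
    refine hRcl {i1 η} (by simpa using hη) ?_
    left; left; left; right
    exact mem_iUnion₂.2 ⟨i1 η, by simp, η, ζ, rfl, hζ, rfl⟩
  have hRδ := dl_spec hRc hRi
  have hMδ : ∀ η, i1 η ∈ M ↔ η < dl R := by
    intro η
    rw [← hRδ]
    exact ⟨fun h => hMR h, fun h => hRM _ h (i1_mem_H' hθ η)⟩
  have hNδ : dl N = dl R := by
    refine dl_eq fun η => ?_
    rw [← hRδ]
    exact ⟨fun h => h.1, fun h => ⟨h, i1_mem_H' hθ0' η⟩⟩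
  have hND : N ∈ D0 := by
    refine hF0 N (hRc.mono inter_subset_left) inter_subset_right ?_
    intro a ha
    refine subset_inter ?_ (hF0H a (ha.trans inter_subset_right))
    refine Subset.trans ?_ (hRcl a (ha.trans inter_subset_left))
    intro z hz
    exact Or.inl (Or.inl (Or.inl (Or.inl (Or.inr hz))))
  obtain ⟨E0, hE0N, hE0, halt⟩ := hD0 N hND
  obtain ⟨hgE, hqE⟩ := hgq E0 hE0
  have hgR : g E0 ∈ R := by
    refine hRcl {E0} (by simpa using hE0N.1) ?_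
    left; right
    exact mem_iUnion₂.2 ⟨E0, by simp, Or.inr rfl⟩
  have hgM : g E0 ∈ M := hRM _ hgR (H_subset hH hgE.subset)
  -- the main equivalence
  have main : ∀ P ∈ g E0, P ∈ M → q E0 P ∈ E0 ∧ q E0 P ∈ N ∧
      (P ∈ S M ↔ q E0 P ∈ sig X0 h0 N) := by
    intro P hP hPM
    obtain ⟨hqE0, α, hα0, hQα, hPα, hQφ, hφQ⟩ := hqE P hP
    have hPc : P ∈ ctbl X := hgE.subset hP
    have hQR : q E0 P ∈ R := by
      refine hRcl {E0, P} ?_ ?_
      · intro z hz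
        rw [Finset.coe_insert, Finset.coe_singleton] at hz
        rcases hz with rfl | rfl
        · exact hE0N.1
        · exact hMR hPM
      · right
        exact mem_iUnion₂.2 ⟨E0, by simp, mem_iUnion₂.2 ⟨P, by simp, rfl⟩⟩
    have hQc : q E0 P ∈ ctbl X0 := hE0.subset hqE0
    have hQN : q E0 P ∈ N := ⟨hQR, H_trans hH0 hQc⟩
    have hαR : i1 α ∈ R := by
      have hdl : dl (q E0 P : Set ZFSet.{0}) = α := dl_eq hQα
      refine hRcl {q E0 P} (by simpa using hQR) ?_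
      left; right
      refine mem_iUnion₂.2 ⟨q E0 P, by simp, Or.inl ?_⟩
      rw [hdl]
    have hαδ : α < dl R := (hRδ α).1 hαR
    have hPsub : (P : Set ZFSet.{0}) ⊆ M := by
      intro z hz
      refine hRM z ?_ (H_trans (hMH hPM) hz)
      refine hRcl {P} (by simpa using hMR hPM) ?_
      left; left; right
      exact mem_iUnion₂.2 ⟨P, by simp, (mem_ctbl.1 hPc).2, hz⟩
    have hk := hkey M hMc hMH (hD'F M ⟨hMc, hMH, hMcl⟩) (dl R) hMδ P hPc hPsub α hαδ hPα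
    refine ⟨hqE0, hQN, ?_, ?_⟩
    · intro hPS
      obtain ⟨a, haP, hαa⟩ := hk.1 hPM hPS
      have haX : (a : Set ZFSet.{0}) ⊆ X := fun z hz => (mem_ctbl.1 hPc).1 (haP hz)
      obtain ⟨γ, hγ, hγβ⟩ := hopen a haX (dl R) α hαa hα0
      refine ⟨hQc, φ a, hQφ a haP, γ, (hQα γ).2 hγ, ?_⟩
      intro β hγβ' hβ
      rw [hNδ]
      refine ⟨a, haX, rfl, hγβ β hγβ' ?_⟩
      by_contra! hlt
      obtain ⟨η, h3, h4⟩ := hβ α hlt
      exact absurd ((hQα η).1 h4) (not_lt.2 h3)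
    · rintro ⟨_, x, hx, γ, hγ, hall⟩
      have hα' := hall α ((hQα γ).1 hγ) fun ζ hζ => ⟨ζ, le_rfl, (hQα ζ).2 hζ⟩
      rw [hNδ] at hα'
      obtain ⟨a', ha', rfl, hαa'⟩ := hα'
      obtain ⟨a, haP, haa'⟩ := hφQ a' ha' hx
      refine hk.2 ⟨a, haP, ?_⟩
      rw [hφh a a' (fun z hz => (mem_ctbl.1 hPc).1 (haP hz)) ha' haa']
      exact hαa'
  refine ⟨g E0, hgM, hgE, ?_⟩
  rcases halt with halt | halt
  · left
    intro P hP hPM
    obtain ⟨h3, h4, h5⟩ := main P hP hPM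
    exact h5.2 (halt _ h3 h4)
  · right
    intro P hP hPM hPS
    obtain ⟨h3, h4, h5⟩ := main P hP hPM
    exact halt _ h3 h4 (h5.1 hPS)


end Pool.Agent.H71.ZO
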