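import Pool.Agent.H71.ZO.Base

/-!
# Stationary families of countable models and saturation of the nonstationary ideal
-/

namespace Pool.Agent.H71.ZO

open Cardinal Ordinal Set
open Pool.Agent.Results.MP_4b9105_lc.CanonicalBounding

/-- The nonstationary ideal on `ω₁` is saturated: every family of stationary subsets of `ω₁` with
pairwise nonstationary intersections has at most `ℵ₁` members. -/
def NSSaturated : Prop :=
  ∀ A : Set (Set (ω₁ : Ordinal.{0}).ToType), (∀ s ∈ A, IsStationary s) →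
    (∀ s ∈ A, ∀ t ∈ A, s ≠ t → ¬ IsStationary (s ∩ t)) → #A ≤ ℵ₁

/-! ### Closed sets -/

/-- `M` is closed under `G`, inside `U`. -/
def Cl {α : Type*} (U : Set α) (G : Finset α → Set α) (M : Set α) : Prop :=
  ∀ s : Finset α, (s : Set α) ⊆ M → G s ∩ U ⊆ M

/-- Every operation has a closed set in `T`. -/
def Stn {α : Type*} (U : Set α) (T : Set (Set α)) : Prop :=
  ∀ G : Finset α → Set α, (∀ s, (G s).Countable) → ∃ M ∈ T, Cl U G M

theorem Cl.mono {α : Type*} {U : Set α} {G G' : Finset α → Set α} {M : Set α}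
    (h : Cl U G' M) (hG : ∀ s, G s ⊆ G' s) : Cl U G M := fun s hs =>
  (inter_subset_inter_left _ (hG s)).trans (h s hs)

theorem exists_Cl {α : Type*} (U : Set α) (G : Finset α → Set α) (hG : ∀ s, (G s).Countable)
    (A : Set α) (hA : A.Countable) (hAU : A ⊆ U) :
    ∃ M : Set α, M.Countable ∧ M ⊆ U ∧ A ⊆ M ∧ Cl U G M := by
  refine ⟨clo (fun s => G s ∩ U) A, clo_countable _ (fun s => (hG s).mono inter_subset_left) hA,
    clo_min hAU fun _ _ => inter_subset_right, subset_clo _ A, ?_⟩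
  intro s hs
  exact clo_closed (fun s => G s ∩ U) A s hs

theorem Cl_chain {α : Type*} (U : Set α) (G : Finset α → Set α) (M : ℕ → Set α)
    (hM : ∀ n, M n ⊆ M (n + 1)) (h : ∀ n, Cl U G (M n)) : Cl U G (⋃ n, M n) := by
  classical
  intro s hs
  have hmono : Monotone M := monotone_nat_of_le_succ hM
  obtain ⟨n, hn⟩ : ∃ n, (s : Set α) ⊆ M n := by
    induction s using Finset.induction_on with
    | empty => exact ⟨0, by simp⟩
    | insert y s _ ih =>
      rw [Finset.coe_insert, insert_subset_iff] at hs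
      obtain ⟨n, hn⟩ := ih hs.2
      obtain ⟨m, hm⟩ := mem_iUnion.1 hs.1
      refine ⟨max m n, ?_⟩
      rw [Finset.coe_insert, insert_subset_iff]
      exact ⟨hmono (le_max_left _ _) hm, hn.trans (hmono (le_max_right _ _))⟩
  exact (h n s hn).trans (subset_iUnion M n)

theorem Stn.ne {α : Type*} {U : Set α} {T : Set (Set α)} (h : Stn U T) : ∃ M, M ∈ T := by
  obtain ⟨M, hM, _⟩ := h (fun _ => ∅) fun _ => countable_empty
  exact ⟨M, hM⟩

/-- The pressing down lemma. -/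
theorem Stn.fodor {α : Type*} {U : Set α} {T : Set (Set α)} (hT : Stn U T)
    (R : Set α → Finset α → Prop) (hR : ∀ M ∈ T, ∃ s : Finset α, (s : Set α) ⊆ M ∧ R M s) :
    ∃ s : Finset α, Stn U {M | M ∈ T ∧ (s : Set α) ⊆ M ∧ R M s} := by
  classical
  by_contra! hno
  have h : ∀ s : Finset α, ∃ G : Finset α → Set α, (∀ t, (G t).Countable) ∧
      ∀ M ∈ T, (s : Set α) ⊆ M → R M s → ¬ Cl U G M := by
    intro s
    have := hno s
    rw [Stn] at this
    push Not at this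
    obtain ⟨G, hG, hGM⟩ := this
    exact ⟨G, hG, fun M h1 h2 h3 => hGM M ⟨h1, h2, h3⟩⟩
  choose G hGc hG using h
  obtain ⟨M, hM, hMcl⟩ := hT (fun t => ⋃ s ∈ t.powerset, ⋃ s' ∈ t.powerset, G s s') (by
    intro t
    exact t.powerset.countable_toSet.biUnion fun s _ =>
      t.powerset.countable_toSet.biUnion fun s' _ => hGc s s')
  obtain ⟨s, hs, hRs⟩ := hR M hM
  refine hG s M hM hs hRs ?_
  intro s' hs'
  refine Subset.trans ?_ (hMcl (s ∪ s') (by
    rw [Finset.coe_union]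
    exact union_subset hs hs'))
  refine inter_subset_inter_left _ ?_
  intro z hz
  refine mem_iUnion₂.2 ⟨s, Finset.mem_powerset.2 Finset.subset_union_left, ?_⟩
  exact mem_iUnion₂.2 ⟨s', Finset.mem_powerset.2 Finset.subset_union_right, hz⟩

/-! ### Projections to `ω₁` -/

/-- `M ∩ ω₁ = δ`. -/
def Tr (M : Set ZFSet.{0}) (δ : W1) : Prop := ∀ η, i1 η ∈ M ↔ η < δ

theorem Tr.unique {M : Set ZFSet.{0}} {δ δ' : W1} (h : Tr M δ) (h' : Tr M δ') : δ = δ' := by
  rw [← dl_eq h, ← dl_eq h']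

/-- The set of the `M ∩ ω₁`, for `M ∈ T` closed under `G`. -/
def pj (U : Set ZFSet.{0}) (T : Set (Set ZFSet.{0})) (G : Finset ZFSet.{0} → Set ZFSet.{0}) :
    Set W1 :=
  {δ | ∃ M ∈ T, Cl U G M ∧ Tr M δ}

theorem pj_anti {U : Set ZFSet.{0}} {T : Set (Set ZFSet.{0})}
    {G G' : Finset ZFSet.{0} → Set ZFSet.{0}} (h : ∀ s, G s ⊆ G' s) : pj U T G' ⊆ pj U T G := by
  rintro δ ⟨M, h1, h2, h3⟩
  exact ⟨M, h1, h2.mono h, h3⟩

/-- The operation whose closed sets meet `ω₁` in an initial segment. -/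
def Gini (s : Finset ZFSet.{0}) : Set ZFSet.{0} :=
  ⋃ x ∈ s, {z | ∃ η ζ, i1 η = x ∧ ζ < η ∧ i1 ζ = z}

theorem Gini_countable (s : Finset ZFSet.{0}) : (Gini s).Countable := by
  refine s.countable_toSet.biUnion fun x _ => ?_
  by_cases hx : ∃ η, i1 η = x
  · obtain ⟨η, rfl⟩ := hx
    refine ((countable_Iio_W1 η).image i1).mono ?_
    rintro z ⟨η', ζ, h1, h2, rfl⟩
    rw [i1_injective h1] at h2
    exact ⟨ζ, h2, rfl⟩
  · refine countable_empty.mono ?_
    rintro z ⟨η, ζ, h1, _⟩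
    exact absurd ⟨η, h1⟩ hx

theorem tr_dl {U : Set ZFSet.{0}} (hU : ∀ η, i1 η ∈ U) {M : Set ZFSet.{0}} (hMc : M.Countable)
    (h : Cl U Gini M) : Tr M (dl M) := by
  refine dl_spec hMc ?_
  intro η ζ hη hζ
  refine h {i1 η} (by simpa using hη) ⟨?_, hU ζ⟩
  exact mem_iUnion₂.2 ⟨i1 η, by simp, η, ζ, rfl, hζ, rfl⟩

/-- The operation given by a function on `ω₁`. -/
def Gfun (f : W1 → ZFSet.{0}) (s : Finset ZFSet.{0}) : Set ZFSet.{0} :=
  ⋃ x ∈ s, {z | ∃ η, i1 η = x ∧ f η = z}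

theorem Gfun_countable (f : W1 → ZFSet.{0}) (s : Finset ZFSet.{0}) : (Gfun f s).Countable := by
  refine s.countable_toSet.biUnion fun x _ => ?_
  refine Subsingleton.countable ?_
  rintro z ⟨η, h1, rfl⟩ z' ⟨η', h2, rfl⟩
  rw [i1_injective (h1.trans h2.symm)]

theorem Gfun_spec {U : Set ZFSet.{0}} {f : W1 → ZFSet.{0}} {M : Set ZFSet.{0}}
    (h : Cl U (Gfun f) M) (η : W1) (hη : i1 η ∈ M) (hf : f η ∈ U) : f η ∈ M := by
  refine h {i1 η} (by simpa using hη) ⟨?_, hf⟩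
  exact mem_iUnion₂.2 ⟨i1 η, by simp, η, rfl, rfl⟩

theorem Stn.pj_stationary {U : Set ZFSet.{0}} (hU : ∀ η, i1 η ∈ U) {T : Set (Set ZFSet.{0})}
    (hTc : ∀ M ∈ T, M.Countable) (hT : Stn U T) {G : Finset ZFSet.{0} → Set ZFSet.{0}}
    (hG : ∀ s, (G s).Countable) : IsStationary (pj U T G) := by
  intro C hC
  have h1 : ∀ η : W1, ∃ ζ ∈ C, η < ζ := by
    intro η
    obtain ⟨b, hb⟩ := bdd_W1 {η} (countable_singleton _)
    obtain ⟨ζ, hζ, hbζ⟩ := hC.isCofinal b
    exact ⟨ζ, hζ, (hb η rfl).trans_le hbζ⟩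
  choose nx hnxC hnx using h1
  let o : W1 := Classical.arbitrary W1
  obtain ⟨M, hM, hMcl⟩ := hT (fun s => G s ∪ Gini s ∪ Gfun (fun η => i1 (nx η)) s ∪ {i1 o})
    (fun s => (((hG s).union (Gini_countable s)).union (Gfun_countable _ s)).union
      (countable_singleton _))
  have hG1 : Cl U G M := hMcl.mono fun s z hz => Or.inl (Or.inl (Or.inl hz))
  have hG2 : Cl U Gini M := hMcl.mono fun s z hz => Or.inl (Or.inl (Or.inr hz))
  have hG3 : Cl U (Gfun fun η => i1 (nx η)) M := hMcl.mono fun s z hz => Or.inl (Or.inr hz)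
  have htr := tr_dl hU (hTc M hM) hG2
  refine ⟨dl M, ⟨M, hM, hG1, htr⟩, ?_⟩
  have ho : i1 o ∈ M := hMcl ∅ (by simp) ⟨Or.inr rfl, hU o⟩
  have h2 : ∀ η, η < dl M → nx η < dl M := fun η hη =>
    (htr _).1 (Gfun_spec hG3 η ((htr η).2 hη) (hU _))
  refine hC.isLUB_mem (t := C ∩ Iio (dl M)) inter_subset_left
    ⟨nx o, hnxC o, h2 o ((htr o).1 ho)⟩ ?_
  refine ⟨fun x hx => le_of_lt hx.2, fun b hb => ?_⟩
  by_contra! hlt
  exact absurd (hb ⟨hnxC b, h2 b hlt⟩) (not_le.2 (hnx b))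

/-! ### Stabilization from saturation -/

/-- Operations with countable values. -/
abbrev Op : Type 1 := {G : Finset ZFSet.{0} → Set ZFSet.{0} // ∀ s, (G s).Countable}

/-- Union of two operations. -/
def Op.sup (G G' : Op) : Op := ⟨fun s => G.1 s ∪ G'.1 s, fun s => (G.2 s).union (G'.2 s)⟩

theorem bdd_not_stationary (A : Set W1) (b : W1) (h : ∀ δ ∈ A, δ ≤ b) : ¬ IsStationary A := by
  rw [not_isStationary_iff]
  refine ⟨Ioi b, ⟨?_, ?_⟩, ?_⟩
  · intro d hd hne _ a ha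
    obtain ⟨x, hx⟩ := hne
    exact (mem_Ioi.1 (hd hx)).trans_le (ha.1 hx)
  · intro x
    obtain ⟨y, hy⟩ := bdd_W1 {x, b} ((countable_singleton _).insert _)
    exact ⟨y, hy b (by simp), (hy x (by simp)).le⟩
  · rw [disjoint_left]
    intro δ hδ hδ'
    exact absurd (h δ hδ) (not_le.2 hδ')

theorem card_W2 : #W2 = ℵ_ 2 := by
  rw [mk_toType, card_omega]

open Classical in
/-- The diagonal union of the operations `g j`, `j < i`. -/
noncomputable def diag (i : W2) (g : ∀ j, j < i → Op) : Op :=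
  ⟨fun s => ⋃ j ∈ {j : W2 | j < i ∧ i1 ((exists_inj i).choose j) ∈ s},
    ⋃ s' ∈ s.powerset, (if h : j < i then (g j h).1 s' else ∅), by
    intro s
    refine Countable.biUnion ?_ fun j _ => s.powerset.countable_toSet.biUnion fun s' _ => ?_
    · have hfin : {ξ : W1 | i1 ξ ∈ s}.Finite :=
        s.finite_toSet.preimage i1_injective.injOn
      have hinj := (exists_inj i).choose_spec
      refine Set.Finite.countable ?_
      refine Set.Finite.of_finite_image (f := (exists_inj i).choose) (hfin.subset ?_) ?_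
      · rintro _ ⟨j, hj, rfl⟩
        exact hj.2
      · exact hinj.mono fun j hj => hj.1
    · split_ifs with h
      · exact (g j h).2 s'
      · exact countable_empty⟩

theorem diag_spec {U : Set ZFSet.{0}} {i : W2} {g : ∀ j, j < i → Op} {M : Set ZFSet.{0}}
    (h : Cl U (diag i g).1 M) {j : W2} (hj : j < i)
    (hjM : i1 ((exists_inj i).choose j) ∈ M) : Cl U (g j hj).1 M := by
  classical
  intro s hs
  refine Subset.trans ?_ (h (insert (i1 ((exists_inj i).choose j)) s) (by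
    rw [Finset.coe_insert]
    exact insert_subset hjM hs))
  refine inter_subset_inter_left _ ?_
  intro z hz
  refine mem_iUnion₂.2 ⟨j, ⟨hj, Finset.mem_insert_self _ _⟩, ?_⟩
  refine mem_iUnion₂.2 ⟨s, Finset.mem_powerset.2 (Finset.subset_insert _ _), ?_⟩
  rw [dif_pos hj]
  exact hz

theorem sat_stab (hsat : NSSaturated) (U : Set ZFSet.{0}) (T : Set (Set ZFSet.{0})) :
    ∃ G : Op, ∀ G' : Op, ¬ IsStationary (pj U T G.1 \ pj U T (G.sup G').1) := by
  classical
  by_contra! hno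
  choose nx hnx using hno
  let Gs : W2 → Op := (wellFounded_lt (α := W2)).fix fun i g => (diag i g).sup (nx (diag i g))
  have hGs : ∀ i, Gs i = (diag i fun j _ => Gs j).sup (nx (diag i fun j _ => Gs j)) := by
    intro i
    exact (wellFounded_lt (α := W2)).fix_eq _ i
  let A : W2 → Set W1 := fun i => pj U T (diag i fun j _ => Gs j).1 \ pj U T (Gs i).1
  have hA : ∀ i, IsStationary (A i) := by
    intro i
    have := hnx (diag i fun j _ => Gs j)
    rw [← hGs i] at this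
    exact this
  have hlt : ∀ j i, j < i → ¬ IsStationary (A j ∩ A i) := by
    intro j i hji
    refine bdd_not_stationary _ ((exists_inj i).choose j) ?_
    rintro δ ⟨⟨_, hδ1⟩, ⟨⟨M, hM, hMcl, hMtr⟩, _⟩⟩
    by_contra! hlt
    exact hδ1 ⟨M, hM, diag_spec hMcl hji ((hMtr _).2 hlt), hMtr⟩
  have hne : ∀ j i, j ≠ i → ¬ IsStationary (A j ∩ A i) := by
    intro j i hji
    rcases lt_or_gt_of_ne hji with h | h
    · exact hlt j i h
    · rw [inter_comm]
      exact hlt i j h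
  have hinj : Function.Injective A := by
    intro j i hji
    by_contra hne'
    refine hne j i hne' ?_
    rw [hji, inter_self]
    exact hA i
  have hcard := hsat (range A) (by rintro _ ⟨i, rfl⟩; exact hA i) (by
    rintro _ ⟨i, rfl⟩ _ ⟨j, rfl⟩ hij
    exact hne i j fun h => hij (by rw [h]))
  rw [mk_range_eq A hinj, card_W2, aleph_le_aleph] at hcard
  exact absurd hcard (by norm_num)

/-! ### More operations -/

/-- Elements of countable sets. -/
def Gel (s : Finset ZFSet.{0}) : Set ZFSet.{0} :=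
  ⋃ x ∈ s, {z | (x : Set ZFSet.{0}).Countable ∧ z ∈ x}

theorem Gel_countable (s : Finset ZFSet.{0}) : (Gel s).Countable := by
  refine s.countable_toSet.biUnion fun x _ => ?_
  by_cases hx : (x : Set ZFSet.{0}).Countable
  · exact hx.mono fun z hz => hz.2
  · exact countable_empty.mono fun z hz => absurd hz.1 hx

theorem Gel_spec {U : Set ZFSet.{0}} {M : Set ZFSet.{0}} (h : Cl U Gel M) {x z : ZFSet.{0}}
    (hx : x ∈ M) (hxc : (x : Set ZFSet.{0}).Countable) (hz : z ∈ x) (hzU : z ∈ U) : z ∈ M := by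
  refine h {x} (by simpa using hx) ⟨?_, hzU⟩
  exact mem_iUnion₂.2 ⟨x, by simp, hxc, hz⟩

/-- The operation given by a function. -/
def Gmap (f : ZFSet.{0} → ZFSet.{0}) (s : Finset ZFSet.{0}) : Set ZFSet.{0} :=
  ⋃ x ∈ s, {f x}

theorem Gmap_countable (f : ZFSet.{0} → ZFSet.{0}) (s : Finset ZFSet.{0}) :
    (Gmap f s).Countable :=
  s.countable_toSet.biUnion fun _ _ => countable_singleton _

theorem Gmap_spec {U : Set ZFSet.{0}} {f : ZFSet.{0} → ZFSet.{0}} {M : Set ZFSet.{0}}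
    (h : Cl U (Gmap f) M) {x : ZFSet.{0}} (hx : x ∈ M) (hf : f x ∈ U) : f x ∈ M := by
  refine h {x} (by simpa using hx) ⟨?_, hf⟩
  exact mem_iUnion₂.2 ⟨x, by simp, rfl⟩

/-- The operation given by a function of an element of `ω₁` and a set. -/
def Gfun2 (f : W1 → ZFSet.{0} → ZFSet.{0}) (s : Finset ZFSet.{0}) : Set ZFSet.{0} :=
  ⋃ x ∈ s, ⋃ y ∈ s, {z | ∃ η, i1 η = x ∧ f η y = z}

theorem Gfun2_countable (f : W1 → ZFSet.{0} → ZFSet.{0}) (s : Finset ZFSet.{0}) :
    (Gfun2 f s).Countable := by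
  refine s.countable_toSet.biUnion fun x _ => s.countable_toSet.biUnion fun y _ => ?_
  refine Subsingleton.countable ?_
  rintro z ⟨η, h1, rfl⟩ z' ⟨η', h2, rfl⟩
  rw [i1_injective (h1.trans h2.symm)]

theorem Gfun2_spec {U : Set ZFSet.{0}} {f : W1 → ZFSet.{0} → ZFSet.{0}} {M : Set ZFSet.{0}}
    (h : Cl U (Gfun2 f) M) {η : W1} (hη : i1 η ∈ M) {y : ZFSet.{0}} (hy : y ∈ M)
    (hf : f η y ∈ U) : f η y ∈ M := by
  classical
  refine h {i1 η, y} (by
    rw [Finset.coe_insert, Finset.coe_singleton]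
    exact insert_subset hη (singleton_subset_iff.2 hy)) ⟨?_, hf⟩
  exact mem_iUnion₂.2 ⟨i1 η, by simp, mem_iUnion₂.2 ⟨y, by simp, η, rfl, rfl⟩⟩

theorem exists_mem_of_stationary {A B C : Set W1} (hA : IsStationary A) (hAB : A ⊆ B)
    (h : ¬ IsStationary (B \ C)) : ∃ δ ∈ A, δ ∈ C := by
  rw [not_isStationary_iff] at h
  obtain ⟨t, ht, hd⟩ := h
  obtain ⟨x, hx, hxt⟩ := hA ht
  refine ⟨x, hx, ?_⟩
  by_contra hno
  exact disjoint_left.1 hd ⟨hAB hx, hno⟩ hxt

/-! ### Clubs in `H(θ)` -/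

theorem clubCl {θ : Cardinal.{0}} (hθ : ℵ₀ ≤ θ) {X : ZFSet.{0}} (hX : X ∈ H θ)
    {G : Finset ZFSet.{0} → Set ZFSet.{0}} (hG : ∀ s, (G s).Countable) :
    IsClubH θ {M | IsCtblElem θ M ∧ X ∈ M ∧ Cl (H θ) G M} where
  elem := fun _ h => h.1
  closed := fun M h1 h2 => ⟨chain_elem M h1 fun n => (h2 n).1, mem_iUnion.2 ⟨0, (h2 0).2.1⟩,
    Cl_chain (H θ) G M h1 fun n => (h2 n).2.2⟩
  unbounded := by
    intro A hA hAH
    obtain ⟨F, hFc, hFH, hF⟩ := kueker (club_elem hθ hX)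
    obtain ⟨M, hMc, hMH, hAM, hM⟩ := exists_Cl (H θ) (fun s => F s ∪ G s)
      (fun s => (hFc s).union (hG s)) A hA hAH
    have hM1 := hF M hMc hMH fun a ha =>
      (subset_inter subset_union_left (hFH a (ha.trans hMH))).trans (hM a ha)
    exact ⟨M, ⟨hM1.1, hM1.2, hM.mono fun s => subset_union_right⟩, hAM⟩

end Pool.Agent.H71.ZO
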