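import Pool.Agent.H71.ZO.Reduce
import Pool.Agent.H71.ZO.Stat

/-!
# MP_4b9105_lc: the 0-1 law follows from MRP and the saturation of the nonstationary ideal

If the nonstationary ideal on `ω₁` is saturated, then the 0-1 law for open set mappings follows
from Moore's mapping reflection principle, in fact from one instance of it (`X₀ ⊇ ω₁` of size
at least `2^ℵ₁`) for set mappings `Σ` such that `Σ(M)` depends only on `M ∩ ω₁`.
-/

namespace Pool.Agent.Results.MP_4b9105_lc.SaturatedMRP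

open Cardinal Ordinal Set
open Pool.Agent.Results.MP_4b9105_lc.CanonicalBounding
open Pool.Agent.H71.ZO

/-- `N` is a continuous `∈`-chain of length `ω₁` of members of `D` which reflects `S`. -/
def IsReflecting (X : ZFSet.{0}) (D : Set (Set ZFSet.{0})) (S : Set ZFSet.{0} → Set ZFSet.{0})
    (N : (ω₁ : Ordinal.{0}).ToType → Set ZFSet.{0}) : Prop :=
  (∀ ξ, N ξ ∈ D) ∧
  (∀ ξ η, ξ < η → ∃ c ∈ N η, (c : Set ZFSet.{0}) = N ξ) ∧
  (∀ ξ, Order.IsSuccLimit ξ → N ξ = ⋃ η ∈ Set.Iio ξ, N η) ∧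
  (∀ ξ, Order.IsSuccLimit ξ → ∃ ν < ξ, ∀ η, ν < η → η < ξ →
    ∃ P ∈ S (N ξ), (P : Set ZFSet.{0}) = N η ∩ X)

/-- The instance at `X` and `θ` of Moore's mapping reflection principle, restricted to the open
stationary set mappings `S` for which `S M` depends only on `M ∩ ω₁`. -/
def UniformMRPAt (X : ZFSet.{0}) (θ : Cardinal.{0}) : Prop :=
  ∀ (D : Set (Set ZFSet.{0})) (S : Set ZFSet.{0} → Set ZFSet.{0}), IsOpenMapping X θ D S →
    (∀ M ∈ D, ∀ M' ∈ D, M ∩ w1 = M' ∩ w1 → S M = S M') →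
    (∀ M ∈ D, ∀ E ∈ M, IsClubX X E → ∃ P ∈ E, P ∈ M ∧ P ∈ S M) →
    ∃ N, IsReflecting X D S N

/-! ### Consequences of a reflecting sequence -/

theorem isOpenX_ctbl (X : ZFSet.{0}) : IsOpenX X (ctbl X : Set ZFSet.{0}) := by
  intro P hP
  refine ⟨∅, P, ?_, hP, ?_, fun _ h => h, fun Q hQ _ _ => hQ⟩
  · rw [ZFSet.card_empty]
    exact aleph0_pos
  · intro z hz
    exact absurd hz (ZFSet.notMem_empty z)

/-- The 0-1 law at the model `M`. -/
def LawAt (X : ZFSet.{0}) (S : Set ZFSet.{0} → Set ZFSet.{0}) (M : Set ZFSet.{0}) : Prop :=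
  ∃ E ∈ M, IsClubX X E ∧ ((∀ P ∈ E, P ∈ M → P ∈ S M) ∨ (∀ P ∈ E, P ∈ M → P ∉ S M))

theorem clubE {X : ZFSet.{0}} (N : W1 → Set ZFSet.{0}) (c : W1 → ZFSet.{0})
    (hc : ∀ ξ, (c ξ : Set ZFSet.{0}) = N ξ) (hNc : ∀ ξ, (N ξ).Countable)
    (hmono : ∀ ξ η, ξ ≤ η → N ξ ⊆ N η)
    (hlim : ∀ ξ, Order.IsSuccLimit ξ → N ξ = ⋃ η ∈ Set.Iio ξ, N η)
    (hle : ∀ ξ, ξ ≤ dl (N ξ)) (htr : ∀ ξ, Tr (N ξ) (dl (N ξ)))
    (hdl : ∀ ξ η, ξ ≤ η → dl (N ξ) ≤ dl (N η)) (ν : W1) :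
    IsClubX X (ZFSet.sep (fun P => ∃ η, ν < η ∧ (∀ z, z ∈ c η → z ∈ X → z ∈ P) ∧
      (∀ ζ, i1 ζ ∈ P ↔ i1 ζ ∈ X ∧ ζ < dl (N η))) (ctbl X)) := by
  constructor
  · intro P hP
    exact (ZFSet.mem_sep.1 hP).1
  · intro P hP hPE
    have hPE' := fun n => ZFSet.mem_sep.1 (hPE n)
    rw [ZFSet.mem_sep]
    refine ⟨iUnion_mem_ctbl P fun n => (hPE' n).1, ?_⟩
    choose η hη1 hη2 hη3 using fun n => (hPE' n).2
    obtain ⟨b, hb⟩ := bdd_W1 (range η) (countable_range η)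
    obtain ⟨m, hm, hmin⟩ := wellFounded_lt.has_min {b : W1 | ∀ n, η n ≤ b}
      ⟨b, fun n => (hb _ (mem_range_self n)).le⟩
    by_cases hatt : ∃ k, η k = m
    · obtain ⟨k, rfl⟩ := hatt
      refine ⟨η k, hη1 k, ?_, ?_⟩
      · intro z hz hzX
        exact ZFSet.mem_iUnion.2 ⟨k, hη2 k z hz hzX⟩
      · intro ζ
        constructor
        · intro h
          obtain ⟨n, hn⟩ := ZFSet.mem_iUnion.1 h
          obtain ⟨h1, h2⟩ := (hη3 n ζ).1 hn
          exact ⟨h1, h2.trans_le (hdl _ _ (hm n))⟩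
        · intro h
          exact ZFSet.mem_iUnion.2 ⟨k, (hη3 k ζ).2 h⟩
    · push Not at hatt
      have hlt : ∀ n, η n < m := fun n => lt_of_le_of_ne (hm n) (hatt n)
      have hex : ∀ η' < m, ∃ n, η' < η n := by
        intro η' hη'
        by_contra! hno
        exact hmin η' hno hη'
      have hsl : Order.IsSuccLimit m := by
        refine ⟨?_, ?_⟩
        · intro hmin'
          exact absurd (hmin' (hlt 0).le) (not_le.2 (hlt 0))
        · intro b hb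
          obtain ⟨n, hn⟩ := hex b hb.lt
          exact hb.2 hn (hlt n)
      refine ⟨m, (hη1 0).trans (hlt 0), ?_, ?_⟩
      · intro z hz hzX
        have h1 : z ∈ N m := by rw [← hc m]; exact hz
        rw [hlim m hsl] at h1
        obtain ⟨η', hη', hz'⟩ := mem_iUnion₂.1 h1
        obtain ⟨n, hn⟩ := hex η' hη'
        refine ZFSet.mem_iUnion.2 ⟨n, hη2 n z ?_ hzX⟩
        have h2 := hmono _ _ hn.le hz'
        rw [← hc (η n)] at h2
        exact h2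
      · intro ζ
        constructor
        · intro h
          obtain ⟨n, hn⟩ := ZFSet.mem_iUnion.1 h
          obtain ⟨h1, h2⟩ := (hη3 n ζ).1 hn
          exact ⟨h1, h2.trans_le (hdl _ _ (hlt n).le)⟩
        · rintro ⟨h1, h2⟩
          have h3 := (htr m ζ).2 h2
          rw [hlim m hsl] at h3
          obtain ⟨η', hη', hz'⟩ := mem_iUnion₂.1 h3
          obtain ⟨n, hn⟩ := hex η' hη'
          exact ZFSet.mem_iUnion.2 ⟨n, (hη3 n ζ).2 ⟨h1, ((htr η' ζ).1 hz').trans_le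
            (hdl _ _ hn.le)⟩⟩
  · intro Q hQ
    obtain ⟨hQX, hQc⟩ := mem_ctbl.1 hQ
    obtain ⟨b, hb⟩ := bdd_W1 ({ζ | i1 ζ ∈ Q} ∪ {ν}) ((hQc.preimage i1_injective).union
      (countable_singleton _))
    obtain ⟨P, hP, hP'⟩ := exists_ctbl (X := X) ((Q : Set ZFSet.{0}) ∪ (N b ∩ X))
      (union_subset (fun z hz => hQX hz) inter_subset_right)
      (hQc.union ((hNc b).mono inter_subset_left))
    refine ⟨P, ?_, fun z hz => (hP' z).2 (Or.inl hz)⟩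
    rw [ZFSet.mem_sep]
    refine ⟨hP, b, hb ν (Or.inr rfl), ?_, ?_⟩
    · intro z hz hzX
      refine (hP' z).2 (Or.inr ⟨?_, hzX⟩)
      rw [← hc b]
      exact hz
    · intro ζ
      rw [hP']
      constructor
      · rintro (h | ⟨h, h'⟩)
        · exact ⟨hQX h, (hb ζ (Or.inl h)).trans_le (hle b)⟩
        · exact ⟨h', (htr b ζ).1 h⟩
      · rintro ⟨h, h'⟩
        exact Or.inr ⟨(htr b ζ).2 h', h⟩

theorem sat_main {X : ZFSet.{0}} {θ : Cardinal.{0}} (hX : ℵ₀ < X.card)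
    (hθ : θ.IsRegular) (hH : ctbl X ∈ H θ) (hsat : NSSaturated) (hmrp : UniformMRPAt X θ)
    (S : Set ZFSet.{0} → Set ZFSet.{0}) (hdep : ∀ M M', dl M = dl M' → S M = S M')
    (hsub : ∀ M, S M ⊆ ctbl X) (hopen : ∀ M, IsOpenX X (S M))
    (h1 : ∀ M, ∀ P ∈ S M, ∀ P' ∈ ctbl X, EndExt (P : Set ZFSet.{0}) P' → P' ∈ S M) :
    ∃ D0, IsClubH θ D0 ∧ ∀ N ∈ D0, LawAt X S N := by
  classical
  have hXH : X ∈ H θ := X_mem_H hH
  have hθ' : ℵ₀ < θ := hX.trans (card_lt_of_H hXH)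
  have hU : ∀ η, i1 η ∈ H θ := fun η => i1_mem_H' hθ' η
  by_contra hno
  -- the set of failures is stationary
  let T : Set (Set ZFSet.{0}) := {M | M.Countable ∧ M ⊆ H θ ∧ ¬ LawAt X S M}
  have hT : Stn (H θ) T := by
    intro G hG
    by_contra! hG'
    refine hno ⟨_, clubCl hθ.aleph0_le hXH hG, ?_⟩
    rintro N ⟨hN1, -, hN2⟩
    by_contra hlaw
    exact hG' N ⟨hN1.1, hN1.subset, hlaw⟩ hN2
  obtain ⟨G1, hG1⟩ := sat_stab hsat (H θ) T
  let S0 : Set W1 := pj (H θ) T G1.1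
  -- at the models `M` with `M ∩ ω₁ ∈ S0`, the value `S M` is `M`-stationary
  have hB : ∃ G2 : Op, ∀ M : Set ZFSet.{0}, M.Countable → M ⊆ H θ → Cl (H θ) G2.1 M →
      ∀ δ ∈ S0, Tr M δ → ∀ E ∈ M, IsClubX X E → ∃ P ∈ E, P ∈ M ∧ P ∈ S M := by
    by_contra! hB
    let B : Set (Set ZFSet.{0}) := {M | M.Countable ∧ M ⊆ H θ ∧ ∃ δ ∈ S0, Tr M δ ∧
      ∃ E ∈ M, IsClubX X E ∧ ∀ P ∈ E, P ∈ M → P ∉ S M}
    have hBst : Stn (H θ) B := by
      intro G hG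
      obtain ⟨M, h2, h3, h4, δ, h5, h6, E, h7, h8, h9⟩ := hB ⟨G, hG⟩
      exact ⟨M, ⟨h2, h3, δ, h5, h6, E, h7, h8, h9⟩, h4⟩
    obtain ⟨s, hs⟩ := hBst.fodor (fun M s => ∃ E, s = {E} ∧ IsClubX X E ∧
      ∀ P ∈ E, P ∈ M → P ∉ S M) (by
        rintro M ⟨_, _, δ, _, _, E, h7, h8, h9⟩
        exact ⟨{E}, by simpa using h7, E, rfl, h8, h9⟩)
    obtain ⟨M0, hM0, hsM0, E, rfl, hE, -⟩ := hs.ne
    have hEM0 : E ∈ M0 := hsM0 (by simp)
    have hEH : E ∈ H θ := hM0.2.1 hEM0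
    set BE : Set (Set ZFSet.{0}) := {M | M ∈ B ∧ (({E} : Finset ZFSet.{0}) : Set ZFSet.{0}) ⊆ M ∧
      ∃ E', ({E} : Finset ZFSet.{0}) = {E'} ∧ IsClubX X E' ∧ ∀ P ∈ E', P ∈ M → P ∉ S M}
      with hBE
    have hBE' : ∀ M ∈ BE, M ∈ B ∧ ∀ P ∈ E, P ∈ M → P ∉ S M := by
      rintro M ⟨hM, _, E', hEE', _, hM'⟩
      rw [Finset.singleton_inj] at hEE'
      subst hEE'
      exact ⟨hM, hM'⟩
    obtain ⟨G3, hG3⟩ := sat_stab hsat (H θ) BE
    let S1 : Set W1 := pj (H θ) BE G3.1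
    have hS1 : IsStationary S1 := hs.pj_stationary hU (fun M hM => hM.1.1) G3.2
    have hS10 : S1 ⊆ S0 := by
      rintro δ ⟨M, hM, _, hMδ⟩
      obtain ⟨_, _, δ', hδ', hMδ', _⟩ := (hBE' M hM).1
      rw [hMδ.unique hMδ']
      exact hδ'
    let T' : Set (Set ZFSet.{0}) := {M | M ∈ T ∧ E ∈ M ∧ ∃ δ ∈ S1, Tr M δ}
    have hT' : Stn (H θ) T' := by
      intro G hG
      let G' : Op := ⟨fun s => G s ∪ {E}, fun s => (hG s).union (countable_singleton _)⟩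
      obtain ⟨δ, hδ, M, hM, hMcl, hMδ⟩ := exists_mem_of_stationary hS1 hS10 (hG1 G')
      refine ⟨M, ⟨hM, ?_, δ, hδ, hMδ⟩, hMcl.mono fun s z hz => Or.inr (Or.inl hz)⟩
      exact hMcl ∅ (by simp) ⟨Or.inr (Or.inr rfl), hEH⟩
    obtain ⟨s, hs'⟩ := hT'.fodor (fun M s => ∃ P, s = {P} ∧ P ∈ E ∧ P ∈ S M) (by
      rintro M ⟨hM, hEM, _⟩
      have h2 := hM.2.2
      have h3 : ¬ ∀ P ∈ E, P ∈ M → P ∉ S M := fun h => h2 ⟨E, hEM, hE, Or.inr h⟩
      push Not at h3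
      obtain ⟨P, hPE, hPM, hPS⟩ := h3
      exact ⟨{P}, by simpa using hPM, P, rfl, hPE, hPS⟩)
    obtain ⟨M1, hM1, hsM1, P, rfl, hPE, -⟩ := hs'.ne
    have hPH : P ∈ H θ := hM1.1.2.1 (hsM1 (by simp))
    have hst := hs'.pj_stationary hU (fun M hM => hM.1.1.1) (G := fun _ => ∅)
      fun _ => countable_empty
    let G'' : Op := ⟨fun _ => {P}, fun _ => countable_singleton _⟩
    obtain ⟨δ, ⟨M2, hM2, _, hM2δ⟩, M3, hM3, hM3cl, hM3δ⟩ :=
      exists_mem_of_stationary (C := pj (H θ) BE (G3.sup G'').1) hst (B := S1) (by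
        rintro δ ⟨M, hM, _, hMδ⟩
        obtain ⟨_, _, δ', hδ', hMδ'⟩ := hM.1
        rw [hMδ.unique hMδ']
        exact hδ') (hG3 G'')
    obtain ⟨_, _, P', hPP', _, hPS⟩ := hM2
    rw [Finset.singleton_inj] at hPP'
    subst hPP'
    have hPM3 : P ∈ M3 := hM3cl ∅ (by simp) ⟨Or.inr rfl, hPH⟩
    refine (hBE' M3 hM3).2 P hPE hPM3 ?_
    rw [hdep M3 M2 (by rw [dl_eq hM3δ, dl_eq hM2δ])]
    exact hPS
  obtain ⟨G2, hG2⟩ := hB
  -- the mapping to be reflected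
  let pick : ZFSet.{0} → ZFSet.{0} := fun x => if h : ∃ y, y ∈ x then h.choose else ∅
  have hpick : ∀ x, (∃ y, y ∈ x) → pick x ∈ x := by
    intro x hx
    simp only [pick]
    rw [dif_pos hx]
    exact hx.choose_spec
  let G4 : Finset ZFSet.{0} → Set ZFSet.{0} := fun s =>
    G2.1 s ∪ Gini s ∪ Gel s ∪ Gmap (fun x => i1 (dl (x : Set ZFSet.{0}))) s ∪ Gmap pick s
  have hG4c : ∀ s, (G4 s).Countable := fun s =>
    ((((G2.2 s).union (Gini_countable s)).union (Gel_countable s)).union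
      (Gmap_countable _ s)).union (Gmap_countable _ s)
  let D1 : Set (Set ZFSet.{0}) := {M | IsCtblElem θ M ∧ X ∈ M ∧ Cl (H θ) G4 M}
  have hD1club : IsClubH θ D1 := clubCl hθ.aleph0_le hXH hG4c
  let S' : Set ZFSet.{0} → Set ZFSet.{0} := fun M => if dl M ∈ S0 then S M else (ctbl X : Set _)
  have hD1tr : ∀ M ∈ D1, Tr M (dl M) := fun M hM =>
    tr_dl hU hM.1.1 (hM.2.2.mono fun s z hz => Or.inl (Or.inl (Or.inl (Or.inr hz))))
  obtain ⟨N, hND, hNmem, hNlim, hNref⟩ := hmrp D1 S'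
    { club := hD1club
      mem := fun M hM => hM.2.1
      subset := by
        intro M _
        simp only [S']
        split_ifs
        · exact hsub M
        · exact Subset.rfl
      isOpen := by
        intro M _
        simp only [S']
        split_ifs
        · exact hopen M
        · exact isOpenX_ctbl X }
    (by
      intro M _ M' _ h
      have h2 := dl_congr h
      simp only [S', h2]
      rw [hdep M M' h2])
    (by
      intro M hM E hEM hE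
      by_cases hδ : dl M ∈ S0
      · simp only [S', if_pos hδ]
        exact hG2 M hM.1.1 hM.1.subset (hM.2.2.mono fun s z hz =>
          Or.inl (Or.inl (Or.inl (Or.inl hz)))) _ hδ (hD1tr M hM) E hEM hE
      · simp only [S', if_neg hδ]
        have hne : ∃ y, y ∈ E := by
          obtain ⟨P, hP, _⟩ := hE.unbounded ∅ (by
            rw [mem_ctbl]
            refine ⟨fun z hz => absurd hz (ZFSet.notMem_empty z), ?_⟩
            have : ((∅ : ZFSet.{0}) : Set ZFSet.{0}) = ∅ := by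
              ext z
              simp
            rw [this]
            exact countable_empty)
          exact ⟨P, hP⟩
        have hP := hpick E hne
        refine ⟨pick E, hP, ?_, hE.subset hP⟩
        exact Gmap_spec (hM.2.2.mono fun s z hz => Or.inr hz) hEM
          (H_trans (hM.1.subset hEM) hP))
  -- facts about the reflecting sequence
  have hNc : ∀ ξ, (N ξ).Countable := fun ξ => (hND ξ).1.1
  have hNH : ∀ ξ, N ξ ⊆ H θ := fun ξ => (hND ξ).1.subset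
  have hNtr : ∀ ξ, Tr (N ξ) (dl (N ξ)) := fun ξ => hD1tr _ (hND ξ)
  have hnx : ∀ η : W1, ∃ ζ, η < ζ := fun η => by
    obtain ⟨b, hb⟩ := bdd_W1 {η} (countable_singleton _)
    exact ⟨b, hb η rfl⟩
  choose nx hnx using hnx
  have hc : ∀ ξ, ∃ c ∈ H θ, (c : Set ZFSet.{0}) = N ξ := by
    intro ξ
    obtain ⟨c, hc, hcN⟩ := hNmem ξ (nx ξ) (hnx ξ)
    exact ⟨c, hNH _ hc, hcN⟩
  choose c hcH hcN using hc
  have hcuniq : ∀ ξ (c' : ZFSet.{0}), (c' : Set ZFSet.{0}) = N ξ → c' = c ξ := by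
    intro ξ c' hc'
    rw [← hcN ξ] at hc'
    exact SetLike.coe_injective hc'
  have hclt : ∀ ξ η, ξ < η → c ξ ∈ N η := by
    intro ξ η h
    obtain ⟨c', hc', hcN'⟩ := hNmem ξ η h
    rw [← hcuniq ξ c' hcN']
    exact hc'
  have hmono' : ∀ ξ η, ξ < η → N ξ ⊆ N η := by
    intro ξ η h z hz
    refine Gel_spec (U := H θ) ((hND η).2.2.mono fun s z hz =>
      Or.inl (Or.inl (Or.inr hz))) (hclt ξ η h) ?_ ?_ (hNH ξ hz)
    · rw [hcN ξ]
      exact hNc ξ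
    · have : z ∈ (c ξ : Set ZFSet.{0}) := by rw [hcN ξ]; exact hz
      exact this
  have hmono : ∀ ξ η, ξ ≤ η → N ξ ⊆ N η := by
    intro ξ η h
    rcases h.eq_or_lt with rfl | h
    · exact Subset.rfl
    · exact hmono' ξ η h
  have hdlt : ∀ ξ η, ξ < η → dl (N ξ) < dl (N η) := by
    intro ξ η h
    refine (hNtr η _).1 ?_
    have h2 := Gmap_spec (U := H θ) (f := fun x => i1 (dl (x : Set ZFSet.{0})))
      ((hND η).2.2.mono fun s z hz => Or.inl (Or.inr hz)) (hclt ξ η h) (hU _)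
    simp only [hcN ξ] at h2
    exact h2
  have hdle : ∀ ξ η, ξ ≤ η → dl (N ξ) ≤ dl (N η) := by
    intro ξ η h
    rcases h.eq_or_lt with rfl | h
    · exact le_rfl
    · exact (hdlt ξ η h).le
  have hle : ∀ ξ, ξ ≤ dl (N ξ) := fun ξ =>
    StrictMono.le_apply (f := fun ξ => dl (N ξ)) fun ξ η h => hdlt ξ η h
  -- the clubs
  let Ef : W1 → ZFSet.{0} := fun ν => ZFSet.sep (fun P => ∃ η, ν < η ∧
    (∀ z, z ∈ c η → z ∈ X → z ∈ P) ∧ (∀ ζ, i1 ζ ∈ P ↔ i1 ζ ∈ X ∧ ζ < dl (N η))) (ctbl X)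
  have hEf : ∀ ν, IsClubX X (Ef ν) := fun ν => clubE N c hcN hNc hmono hNlim hle hNtr hdle ν
  have hwit : ∀ ν (P : ZFSet.{0}), ∃ η : W1, P ∈ Ef ν → (ν < η ∧
      (∀ z, z ∈ c η → z ∈ X → z ∈ P) ∧ (∀ ζ, i1 ζ ∈ P ↔ i1 ζ ∈ X ∧ ζ < dl (N η))) := by
    intro ν P
    by_cases h : P ∈ Ef ν
    · obtain ⟨η, hη⟩ := (ZFSet.mem_sep.1 h).2
      exact ⟨η, fun _ => hη⟩
    · exact ⟨ν, fun h' => absurd h' h⟩
  choose wit hwit using hwit
  -- the model
  let o : W1 := Classical.arbitrary W1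
  obtain ⟨M, hM, hMcl⟩ := hT (fun s => G1.1 s ∪ Gini s ∪ Gel s ∪ Gfun c s ∪
      Gfun (fun η => i1 (nx η)) s ∪ Gfun Ef s ∪ Gfun2 (fun ν P => i1 (wit ν P)) s ∪ {i1 o})
    (fun s => (((((((G1.2 s).union (Gini_countable s)).union (Gel_countable s)).union
      (Gfun_countable _ s)).union (Gfun_countable _ s)).union (Gfun_countable _ s)).union
      (Gfun2_countable _ s)).union (countable_singleton _))
  have hM1 : Cl (H θ) G1.1 M := hMcl.mono fun s z hz =>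
    Or.inl (Or.inl (Or.inl (Or.inl (Or.inl (Or.inl (Or.inl hz))))))
  have hM2 : Cl (H θ) Gini M := hMcl.mono fun s z hz =>
    Or.inl (Or.inl (Or.inl (Or.inl (Or.inl (Or.inl (Or.inr hz))))))
  have hM3 : Cl (H θ) Gel M := hMcl.mono fun s z hz =>
    Or.inl (Or.inl (Or.inl (Or.inl (Or.inl (Or.inr hz)))))
  have hM4 : Cl (H θ) (Gfun c) M := hMcl.mono fun s z hz =>
    Or.inl (Or.inl (Or.inl (Or.inl (Or.inr hz))))
  have hM5 : Cl (H θ) (Gfun fun η => i1 (nx η)) M := hMcl.mono fun s z hz =>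
    Or.inl (Or.inl (Or.inl (Or.inr hz)))
  have hM6 : Cl (H θ) (Gfun Ef) M := hMcl.mono fun s z hz => Or.inl (Or.inl (Or.inr hz))
  have hM7 : Cl (H θ) (Gfun2 fun ν P => i1 (wit ν P)) M := hMcl.mono fun s z hz =>
    Or.inl (Or.inr hz)
  have ho : i1 o ∈ M := hMcl ∅ (by simp) ⟨Or.inr rfl, hU o⟩
  have htr : Tr M (dl M) := tr_dl hU hM.1 hM2
  have hδS : dl M ∈ S0 := ⟨M, hM, hM1, htr⟩
  have hnxM : ∀ η, η < dl M → nx η < dl M := fun η hη =>
    (htr _).1 (Gfun_spec hM5 η ((htr η).2 hη) (hU _))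
  have hsl : Order.IsSuccLimit (dl M) := by
    refine ⟨?_, ?_⟩
    · intro hmin
      have := (htr o).1 ho
      exact absurd (hmin this.le) (not_le.2 this)
    · intro b hb
      exact hb.2 (hnx b) (hnxM b hb.lt)
  have hNM : ∀ η, η < dl M → N η ⊆ M := by
    intro η hη z hz
    refine Gel_spec hM3 (Gfun_spec hM4 η ((htr η).2 hη) (hcH η)) ?_ ?_ (hNH η hz)
    · rw [hcN η]
      exact hNc η
    · have : z ∈ (c η : Set ZFSet.{0}) := by rw [hcN η]; exact hz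
      exact this
  have hdlN : dl (N (dl M)) = dl M := by
    refine dl_eq fun ζ => ?_
    rw [hNlim _ hsl]
    constructor
    · intro h
      obtain ⟨η, hη, hz⟩ := mem_iUnion₂.1 h
      exact (htr ζ).1 (hNM η hη hz)
    · intro hζ
      refine mem_iUnion₂.2 ⟨nx ζ, hnxM ζ hζ, ?_⟩
      exact (hNtr _ ζ).2 ((hnx ζ).trans_le (hle _))
  obtain ⟨ν, hν, href⟩ := hNref (dl M) hsl
  have hS'N : S' (N (dl M)) = S M := by
    simp only [S']
    rw [hdlN, if_pos hδS]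
    exact hdep _ _ hdlN
  rw [hS'N] at href
  refine hM.2.2 ⟨Ef ν, ?_, hEf ν, Or.inl ?_⟩
  · exact Gfun_spec hM6 ν ((htr ν).2 hν) (H_subset hH (hEf ν).subset)
  · intro P hP hPM
    obtain ⟨h2, h3, h4⟩ := hwit ν P hP
    have h5 : wit ν P < dl M := (htr _).1 (Gfun2_spec hM7 ((htr ν).2 hν) hPM (hU _))
    obtain ⟨P', hP', hP'N⟩ := href (wit ν P) h2 h5
    have hPc : P ∈ ctbl X := (hEf ν).subset hP
    have hP'mem : ∀ z, z ∈ P' ↔ z ∈ N (wit ν P) ∧ z ∈ X := by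
      intro z
      have : z ∈ (P' : Set ZFSet.{0}) ↔ z ∈ N (wit ν P) ∩ X := by rw [hP'N]
      exact this
    refine h1 M P' hP' P hPc ⟨?_, Subset.antisymm ?_ ?_⟩
    · intro z hz
      obtain ⟨h6, h7⟩ := (hP'mem z).1 hz
      refine h3 z ?_ h7
      have : z ∈ (c (wit ν P) : Set ZFSet.{0}) := by rw [hcN]; exact h6
      exact this
    · rintro z ⟨hz, hzw⟩
      refine ⟨?_, hzw⟩
      obtain ⟨ζ, rfl⟩ := mem_w1.1 hzw
      obtain ⟨h6, h7⟩ := (h4 ζ).1 hz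
      exact (hP'mem _).2 ⟨(hNtr _ ζ).2 h7, h6⟩
    · rintro z ⟨hz, hzw⟩
      refine ⟨?_, hzw⟩
      obtain ⟨h6, h7⟩ := (hP'mem z).1 hz
      refine h3 z ?_ h7
      have : z ∈ (c (wit ν P) : Set ZFSet.{0}) := by rw [hcN]; exact h6
      exact this

/-- If the nonstationary ideal on `ω₁` is saturated and the instance of the mapping reflection
principle for one set `X₀ ⊇ ω₁` and one `θ₀`, restricted to the set mappings `Σ` for which `Σ(M)`
depends only on `M ∩ ω₁`, holds, then the 0-1 law for open set mappings holds for all `(X, θ)`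
with `min (|X|, 2^ℵ₁) ≤ |X₀|`. -/
theorem result (hsat : NSSaturated) (X0 : ZFSet.{0}) (θ0 : Cardinal.{0}) (hw : w1 ⊆ X0)
    (hθ0 : θ0.IsRegular) (hH0 : ctbl X0 ∈ H θ0) (hmrp : UniformMRPAt X0 θ0) :
    (∀ (X : ZFSet.{0}) (θ : Cardinal.{0}), ℵ₀ < X.card → θ.IsRegular → ctbl X ∈ H θ →
      min X.card (2 ^ ℵ₁) ≤ X0.card → ZeroOneLawAt X θ) ∧
    (2 ^ ℵ₁ ≤ X0.card → ZeroOneLaw) := by
  have hX0 : ℵ₀ < X0.card := aleph0_lt_of_w1_subset hw
  have hsig : SigLaw X0 θ0 := by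
    intro h0
    exact sat_main hX0 hθ0 hH0 hsat hmrp (sig X0 h0)
      (fun M M' h => by simp only [sig, h]) (fun M P hP => hP.1) (fun M => sig_open X0 h0 M)
      (fun M P hP P' hP' hE => sig_endExt X0 h0 M P hP P' hP' hE)
  have h1 : ∀ (X : ZFSet.{0}) (θ : Cardinal.{0}), ℵ₀ < X.card → θ.IsRegular → ctbl X ∈ H θ →
      min X.card (2 ^ ℵ₁) ≤ X0.card → ZeroOneLawAt X θ :=
    fun X θ hX _ hH hc => reduction hw hH0 hsig hX hH hc
  refine ⟨h1, fun hc X θ hX hθ hH => h1 X θ hX hθ hH ((min_le_right _ _).trans hc)⟩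

end Pool.Agent.Results.MP_4b9105_lc.SaturatedMRP
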